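import Pool.Agent.Helper26K1.AP.Aff

/-!
# Affine characters along polynomial orbits of affine maps
-/

set_option autoImplicit false
set_option linter.unusedSectionVars false

open Polynomial Filter Topology MeasureTheory
open scoped ComplexConjugate

noncomputable section

namespace Pool.Agent.Helper26K1.AP

open Pool.Agent.TH784.AA (IsAff IsAct IsAC int_ac FewB cnt vol bxs mem_bxs cnt_nonneg vol_nonneg
  ae_zero conv_of_residues toU ev_toU sub)
open Pool.Agent.W761.Box (bxc)
open Pool.Agent.H767R2 (ev)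

universe u

variable {X : Type u} [CommGroup X] [TopologicalSpace X] [IsTopologicalGroup X] [CompactSpace X]
  [T2Space X] {d : ℕ} {Φ : (Fin d → ℤ) → Equiv.Perm X} {Λ : (Fin d → ℤ) → (X →ₜ* X)}

/-- characters multiplied by constants -/
abbrev MM (X : Type u) [CommGroup X] [TopologicalSpace X] : Type u :=
  Additive Circle × Additive (X →ₜ* Circle)

/-- value at a point -/
def evM (x : X) : MM X →+ Additive Circle :=
  AddMonoidHom.mk' (fun m => m.1 + Additive.ofMul (m.2.toMul x)) (fun m m' => by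
    show m.1 + m'.1 + Additive.ofMul (m.2.toMul x * m'.2.toMul x) = _
    rw [ofMul_mul, add_add_add_comm])

theorem evM_apply (x : X) (m : MM X) : evM x m = m.1 + Additive.ofMul (m.2.toMul x) := rfl

/-- the action on the characters -/
def lact (Λ : (Fin d → ℤ) → (X →ₜ* X)) (a : Fin d → ℤ) :
    Additive (X →ₜ* Circle) →+ Additive (X →ₜ* Circle) :=
  AddMonoidHom.mk' (fun χ => Additive.ofMul (χ.toMul.comp (Λ a))) (fun _ _ => rfl)

theorem lact_apply (a : Fin d → ℤ) (χ : Additive (X →ₜ* Circle)) (x : X) :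
    (lact Λ a χ).toMul x = χ.toMul (Λ a x) := rfl

/-- the action on the affine characters -/
def mact (Φ : (Fin d → ℤ) → Equiv.Perm X) (Λ : (Fin d → ℤ) → (X →ₜ* X)) (a : Fin d → ℤ) :
    MM X →+ MM X :=
  AddMonoidHom.mk' (fun m => (m.1 + Additive.ofMul (m.2.toMul (Φ a 1)), lact Λ a m.2))
    (fun m m' => by
      refine Prod.ext ?_ ?_
      · show m.1 + m'.1 + Additive.ofMul (m.2.toMul (Φ a 1) * m'.2.toMul (Φ a 1)) = _
        rw [ofMul_mul, add_add_add_comm]
        rfl
      · exact map_add (lact Λ a) m.2 m'.2)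

theorem mact_fst (a : Fin d → ℤ) (m : MM X) :
    (mact Φ Λ a m).1 = m.1 + Additive.ofMul (m.2.toMul (Φ a 1)) := rfl

theorem mact_snd (a : Fin d → ℤ) (m : MM X) : (mact Φ Λ a m).2 = lact Λ a m.2 := rfl

theorem evM_mact (h : AffAct Φ Λ) (a : Fin d → ℤ) (m : MM X) (x : X) :
    evM x (mact Φ Λ a m) = evM (Φ a x) m := by
  rw [evM_apply, evM_apply, mact_fst, mact_snd, lact_apply, h.lin a x, map_mul, ofMul_mul,
    add_assoc, add_comm (Additive.ofMul (m.2.toMul (Φ a 1)))]

theorem AffAct.lin0 (h : AffAct Φ Λ) (x : X) : Λ 0 x = x := by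
  have := h.lin 0 x
  rw [h.zero, Equiv.Perm.one_apply, Equiv.Perm.one_apply, mul_one] at this
  exact this.symm

theorem isAct_lact (h : AffAct Φ Λ) : IsAct (lact Λ) where
  add := by
    intro a b χ
    apply Additive.toMul.injective
    ext x
    rw [lact_apply, lact_apply, lact_apply, add_comm, h.add]
  zero := by
    intro χ
    apply Additive.toMul.injective
    ext x
    rw [lact_apply, h.lin0]

/-- the constants -/
def KM (X : Type u) [CommGroup X] [TopologicalSpace X] : AddSubgroup (MM X) :=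
  (AddMonoidHom.snd (Additive Circle) (Additive (X →ₜ* Circle))).ker

theorem mem_KM {m : MM X} : m ∈ KM X ↔ m.2 = 0 := Iff.rfl

theorem qa_mact (h : AffAct Φ Λ) : QA (mact Φ Λ) (KM X) where
  zero := by
    intro m
    refine Prod.ext ?_ ?_
    · rw [mact_fst, h.zero, Equiv.Perm.one_apply, map_one, ofMul_one, add_zero]
    · rw [mact_snd, (isAct_lact h).zero]
  fix := by
    intro a m hm
    rw [mem_KM] at hm
    refine Prod.ext ?_ ?_
    · rw [mact_fst, hm]
      show m.1 + Additive.ofMul (1 : Circle) = m.1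
      rw [ofMul_one, add_zero]
    · rw [mact_snd, hm, map_zero]
  quasi := by
    intro f g hf hg v
    obtain ⟨T, hT⟩ := h.quasi f g hf hg
    have e : (fun n => mact Φ Λ (f n + g n) v - mact Φ Λ (f n) (mact Φ Λ (g n) v)) = fun n =>
        (AddMonoidHom.inl (Additive Circle) (Additive (X →ₜ* Circle))).comp
          (MonoidHom.toAdditive (v.2.toMul : X →* Circle))
          (Additive.ofMul (Φ (f n + g n) 1 * (Φ (g n) (Φ (f n) 1))⁻¹)) := by
      funext n
      refine Prod.ext ?_ ?_
      · show v.1 + Additive.ofMul (v.2.toMul (Φ (f n + g n) 1)) -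
          (v.1 + Additive.ofMul (v.2.toMul (Φ (g n) 1)) +
            Additive.ofMul (v.2.toMul (Λ (g n) (Φ (f n) 1)))) =
          Additive.ofMul (v.2.toMul (Φ (f n + g n) 1 * (Φ (g n) (Φ (f n) 1))⁻¹))
        rw [h.lin (g n) (Φ (f n) 1), map_mul v.2.toMul, map_inv v.2.toMul, map_mul v.2.toMul,
          ofMul_mul, ofMul_inv, ofMul_mul]
        abel
      · show lact Λ (f n + g n) v.2 - lact Λ (f n) (lact Λ (g n) v.2) = 0
        rw [(isAct_lact h).add, sub_self]
    rw [e]
    refine ⟨fun n => rfl, T, hT.map _⟩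

theorem snd_so {J : Type*} [Fintype J] (P : J → Fin d → ℤ[X]) (w : J → MM X) (n : ℕ) :
    (so (mact Φ Λ) P w n).2 = so (lact Λ) P (fun j => (w j).2) n := by
  unfold so
  rw [Prod.snd_sum]
  rfl

/-- the subsequence along a residue class -/
def shp (q r : ℕ) (P : ℤ[X]) : ℤ[X] := P.comp (C (r : ℤ) + C (q : ℤ) * Polynomial.X)

theorem ex_shp (q r : ℕ) (P : Fin d → ℤ[X]) (n : ℕ) :
    ex (fun i => shp q r (P i)) n = ex P (r + q * n) := by
  funext i
  unfold ex shp
  rw [eval_comp, eval_add, eval_mul, eval_C, eval_C, eval_X]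
  push_cast
  rfl

theorem so_shp {Q : Type*} [AddCommGroup Q] {Ψ : (Fin d → ℤ) → Q →+ Q} {J : Type*} [Fintype J]
    (q r : ℕ) (P : J → Fin d → ℤ[X]) (w : J → Q) (n : ℕ) :
    so Ψ (fun j i => shp q r (P j i)) w n = so Ψ P w (r + q * n) := by
  unfold so
  exact Finset.sum_congr rfl fun j _ => by rw [ex_shp]

/-- counting in dimension one -/
theorem cnt_one {M : Type*} [AddCommGroup M] (f : ℕ → M) (c : M) (N : Fin 1 → ℕ) :
    cnt N (fun n => n ∈ (Set.univ : Set (Fin 1 → ℕ)) ∧ f (n 0) = c) =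
      (zc (fun n => f n - c) (N 0) : ℝ) := by
  classical
  unfold cnt zc
  congr 1
  refine Finset.card_bij (fun n _ => n 0) ?_ ?_ ?_
  · intro n hn
    simp only [Finset.mem_filter, mem_bxs] at hn
    simp only [Finset.mem_filter, Finset.mem_range, sub_eq_zero]
    exact ⟨hn.1 0, hn.2.2⟩
  · intro n _ m _ h
    funext j
    rw [Subsingleton.elim j 0]
    exact h
  · intro n hn
    simp only [Finset.mem_filter, Finset.mem_range, sub_eq_zero] at hn
    refine ⟨fun _ => n, ?_, rfl⟩
    simp only [Finset.mem_filter, mem_bxs]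
    refine ⟨fun j => ?_, Set.mem_univ _, hn.2⟩
    rw [Subsingleton.elim j 0]
    exact hn.1

theorem fewB_one {M : Type*} [AddCommGroup M] {f : ℕ → M} {C δ : ℝ} (hC : 0 ≤ C) (hδ : 0 < δ)
    (h : ∀ c : M, ∀ N : ℕ, 1 ≤ N → (zc (fun n => f n - c) N : ℝ) ≤ C * (N : ℝ) ^ (1 - δ)) :
    FewB (0 : Fin 1) (fun n : Fin 1 → ℕ => f (n 0)) := by
  refine ⟨Set.univ, C, δ, hC, hδ, fun c N hN => ?_, fun N hN => ?_⟩
  · rw [cnt_one]
    refine (h c (N 0) (hN 0)).trans (le_of_eq ?_)
    have h1 : (0 : ℝ) < N 0 := by exact_mod_cast hN 0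
    unfold vol
    rw [Fin.prod_univ_one, sub_eq_add_neg, Real.rpow_add h1, Real.rpow_one]
  · have h1 : cnt N (fun n => n ∉ (Set.univ : Set (Fin 1 → ℕ))) = 0 := by
      classical
      unfold cnt
      rw [Nat.cast_eq_zero, Finset.card_eq_zero, Finset.eq_empty_iff_forall_notMem]
      intro n hn
      simp only [Finset.mem_filter] at hn
      exact hn.2 (Set.mem_univ n)
    rw [h1]
    have := vol_nonneg N
    positivity

variable [MeasurableSpace X] [BorelSpace X] {μ : Measure X} [IsProbabilityMeasure μ]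
  [μ.IsMulLeftInvariant]

theorem ac_evM (m : MM X) : IsAC (fun x => (evM x m).toMul) :=
  ⟨m.2.toMul, m.1.toMul, fun _ => rfl⟩

theorem evM_orth {m m' : MM X} (h : m.2 ≠ m'.2) :
    ∫ x, ((evM x m).toMul : ℂ) * conj ((evM x m').toMul : ℂ) ∂μ = 0 := by
  refine int_ac (ac_evM m) (ac_evM m') ?_
  rintro ⟨c, hc⟩
  apply h
  apply Additive.toMul.injective
  refine ContinuousMonoidHom.ext fun x => ?_
  have h1 : m.1.toMul * m.2.toMul x = c * (m'.1.toMul * m'.2.toMul x) := hc x
  have h2 : m.1.toMul * m.2.toMul 1 = c * (m'.1.toMul * m'.2.toMul 1) := hc 1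
  rw [map_one, map_one, mul_one, mul_one] at h2
  rw [h2, mul_assoc] at h1
  exact mul_left_cancel (mul_left_cancel h1)

/-- **Convergence for affine characters.** -/
theorem conv_one (h : AffAct Φ Λ) {J : Type*} [Fintype J] (P : J → Fin d → ℤ[X]) (w : J → MM X) :
    ∀ᵐ x ∂μ, ∃ L : ℂ, Tendsto (fun N => bxc 1 N fun n =>
      ((evM x (so (mact Φ Λ) P w (n 0))).toMul : ℂ)) atTop (𝓝 L) := by
  obtain ⟨q, hq, hdic⟩ := dic_poly (isAct_lact h) P (fun j => (w j).2)
  have key : ∀ r : ℕ, ∀ᵐ x ∂μ, ∃ L : ℂ, Tendsto (fun N => bxc 1 N fun n =>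
      ((evM x (so (mact Φ Λ) P w (r + q * n 0))).toMul : ℂ)) atTop (𝓝 L) := by
    intro r
    rcases hdic r with hconst | ⟨C, δ, hC, hδ, _, hfew⟩
    · -- constant labels
      set c₀ : MM X := (0, so (lact Λ) P (fun j => (w j).2) r) with hc₀
      obtain ⟨T, hT⟩ := qfixed' (qa_mact h) (fun j i => shp q r (P j i)) w c₀ (fun n => by
        rw [mem_KM, Prod.snd_sub, so_shp, snd_so, hconst, hc₀, sub_self])
      have hθ : PD T (fun n => toU ((so (mact Φ Λ) P w (r + q * n)).1)) := by
        have h1 := hT.map (toU.comp (AddMonoidHom.fst (Additive Circle)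
          (Additive (X →ₜ* Circle))))
        have e : (fun n => toU ((so (mact Φ Λ) P w (r + q * n)).1)) = fun n =>
            (toU.comp (AddMonoidHom.fst (Additive Circle) (Additive (X →ₜ* Circle))))
              (so (mact Φ Λ) (fun j i => shp q r (P j i)) w n - c₀) := by
          funext n
          rw [so_shp]
          show _ = toU (_ - 0)
          rw [sub_zero]
        rw [e]
        exact h1
      obtain ⟨c, hc⟩ := phase_conv hθ
      refine Eventually.of_forall fun x =>
        ⟨c * (((so (lact Λ) P (fun j => (w j).2) r).toMul x : Circle) : ℂ), ?_⟩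
      refine (hc.mul_const _).congr fun N => ?_
      have e1 : ∀ n : Fin 1 → ℕ, ((evM x (so (mact Φ Λ) P w (r + q * n 0))).toMul : ℂ) =
          (((so (lact Λ) P (fun j => (w j).2) r).toMul x : Circle) : ℂ) *
            ev (toU ((so (mact Φ Λ) P w (r + q * n 0)).1)) := by
        intro n
        rw [ev_toU, ← Circle.coe_mul, evM_apply, snd_so, hconst]
        exact congrArg (fun z : Circle => (z : ℂ)) (mul_comm _ _)
      simp only [e1]
      rw [Pool.Agent.W761.Box.bxc_mul, mul_comm]
    · -- few coincidences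
      have h1 := ae_zero (μ := μ) (k := 1) Finset.univ Finset.univ_nonempty
        (fun n : Fin 1 → ℕ => so (lact Λ) P (fun j => (w j).2) (r + q * n 0))
        (fun n x => ((evM x (so (mact Φ Λ) P w (r + q * n 0))).toMul : ℂ))
        (fun n => (continuous_subtype_val.comp (ac_evM _).continuous).measurable)
        (fun n x => (Circle.norm_coe _).le)
        (fun i j hij => evM_orth (by
          rw [snd_so, snd_so]
          exact hij))
        (fun l hl => absurd (Finset.mem_univ l) hl)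
        (fun l _ => by
          rw [Subsingleton.elim l 0]
          exact fewB_one hC hδ hfew)
      filter_upwards [h1] with x hx
      exact ⟨0, hx⟩
  have key2 : ∀ᵐ x ∂μ, ∀ r : ℕ, ∃ L : ℂ, Tendsto (fun N => bxc 1 N fun n =>
      ((evM x (so (mact Φ Λ) P w (r + q * n 0))).toMul : ℂ)) atTop (𝓝 L) := ae_all_iff.2 key
  filter_upwards [key2] with x hx
  refine conv_of_residues (q := q) hq (f := fun n : Fin 1 → ℕ =>
    ((evM x (so (mact Φ Λ) P w (n 0))).toMul : ℂ)) fun r _ => ?_
  exact hx (r 0)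

end Pool.Agent.Helper26K1.AP
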