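import Pool.Agent.Helper26K1.AP.Fam

/-!
# The induction on the weight: few zeros; polynomiality of fixed sums
-/

set_option autoImplicit false

open Polynomial Finset

noncomputable section

namespace Pool.Agent.Helper26K1.AP

variable {B : Type*} [CommRing B] [IsDomain B] [CharZero B] {M : Type*} [AddCommGroup M]

/-- admissible families -/
structure Adm (A : AddSubgroup B) (D : ℕ) (S : Finset B[X]) : Prop where
  ev0 : ∀ P ∈ S, P.eval 0 = 0
  mem : ∀ P ∈ S, ∀ n : ℕ, P.eval (n : B) ∈ A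
  deg : ∀ P ∈ S, P.natDegree ≤ D

variable {A : AddSubgroup B} {D : ℕ}

omit [IsDomain B] [CharZero B] in
theorem Adm.mono {S T : Finset B[X]} (h : Adm A D T) (hST : S ⊆ T) : Adm A D S where
  ev0 := fun P hP => h.ev0 P (hST hP)
  mem := fun P hP => h.mem P (hST hP)
  deg := fun P hP => h.deg P (hST hP)

open Classical in
omit [IsDomain B] [CharZero B] in
theorem Adm.dS {S : Finset B[X]} (h : Adm A D S) (g : ℕ) : Adm A D (dS g S) where
  ev0 := by
    intro P hP
    unfold AP.dS at hP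
    rw [Finset.mem_union, Finset.mem_image] at hP
    rcases hP with hP | ⟨Q, _, rfl⟩
    · exact h.ev0 P hP
    · exact sft_ev0 g Q
  mem := by
    intro P hP n
    unfold AP.dS at hP
    rw [Finset.mem_union, Finset.mem_image] at hP
    rcases hP with hP | ⟨Q, hQ, rfl⟩
    · exact h.mem P hP n
    · rw [sft_eval]
      refine A.sub_mem ?_ (h.mem Q hQ g)
      have := h.mem Q hQ (n + g)
      push_cast at this
      exact this
  deg := by
    intro P hP
    unfold AP.dS at hP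
    rw [Finset.mem_union, Finset.mem_image] at hP
    rcases hP with hP | ⟨Q, hQ, rfl⟩
    · exact h.deg P hP
    · rw [sft_nd]
      exact h.deg Q hQ

open Classical in
omit [IsDomain B] [CharZero B] in
theorem Adm.tS {S : Finset B[X]} (h : Adm A D S) {P₁ : B[X]} (hP₁ : P₁ ∈ S) :
    Adm A D (tS P₁ S) where
  ev0 := by
    intro P hP
    unfold AP.tS at hP
    rw [Finset.mem_image] at hP
    obtain ⟨Q, hQ, rfl⟩ := hP
    rw [eval_sub, h.ev0 Q hQ, h.ev0 P₁ hP₁, sub_zero]
  mem := by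
    intro P hP n
    unfold AP.tS at hP
    rw [Finset.mem_image] at hP
    obtain ⟨Q, hQ, rfl⟩ := hP
    rw [eval_sub]
    exact A.sub_mem (h.mem Q hQ n) (h.mem P₁ hP₁ n)
  deg := by
    intro P hP
    unfold AP.tS at hP
    rw [Finset.mem_image] at hP
    obtain ⟨Q, hQ, rfl⟩ := hP
    exact (natDegree_sub_le _ _).trans (max_le (h.deg Q hQ) (h.deg P₁ hP₁))

/-! ### Weights -/

/-- the weight of `S` is at most `w`; the index `i` belongs to the degree `D - i` -/
def WtLe (D : ℕ) (S : Finset B[X]) (w : Fin D → ℕ) : Prop :=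
  ∀ i : Fin D, @Nk B _ (Classical.decEq _) S (D - i) ≤ w i

/-- the weight after the shift -/
def wdn {D : ℕ} (w : Fin D → ℕ) (i₁ : Fin D) (m : ℕ) : Fin D → ℕ := fun i =>
  if i < i₁ then w i else if i = i₁ then w i - 1 else m

theorem wdn_lt {D : ℕ} {w : Fin D → ℕ} {i₁ : Fin D} (h : 1 ≤ w i₁) (m : ℕ) :
    toLex (wdn w i₁ m) < toLex w := by
  refine ⟨i₁, fun j hj => ?_, ?_⟩
  · show wdn w i₁ m j = w j
    unfold wdn
    rw [if_pos hj]
  · show wdn w i₁ m i₁ < w i₁
    unfold wdn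
    rw [if_neg (lt_irrefl _), if_pos rfl]
    omega

open Classical in
omit [IsDomain B] [CharZero B] in
theorem WtLe.mono {S T : Finset B[X]} {w : Fin D → ℕ} (h : WtLe D T w) (hST : S ⊆ T) :
    WtLe D S w := fun i => by
  have h1 := h i
  refine le_trans ?_ h1
  exact Nk_mono hST _

open Classical in
omit [IsDomain B] [CharZero B] in
theorem WtLe.dS {S : Finset B[X]} {w : Fin D → ℕ} (h : WtLe D S w) (g : ℕ) :
    WtLe D (dS g S) w := fun i => by
  have h1 := h i
  have hi := i.2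
  refine le_trans ?_ h1
  convert Nk_dS g S (k := D - i) (by omega) using 2

open Classical in
omit [IsDomain B] [CharZero B] in
/-- the shift lowers the weight -/
theorem WtLe.tS {S : Finset B[X]} {w : Fin D → ℕ} (h : WtLe D S w) {P₁ : B[X]} (hP₁ : P₁ ∈ S)
    (hmin : ∀ P ∈ S, P₁.natDegree ≤ P.natDegree) (h0 : P₁.natDegree ≠ 0)
    (hD : P₁.natDegree ≤ D) {m : ℕ} (hm : S.card ≤ m) :
    ∃ i₁ : Fin D, 1 ≤ w i₁ ∧ WtLe D (tS P₁ S) (wdn w i₁ m) := by
  refine ⟨⟨D - P₁.natDegree, by omega⟩, ?_, ?_⟩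
  · have h1 := h ⟨D - P₁.natDegree, by omega⟩
    have h2 := Nk_tS_eq hP₁ hmin h0
    have e : D - (D - P₁.natDegree) = P₁.natDegree := by omega
    simp only [e] at h1
    omega
  · intro i
    unfold wdn
    split_ifs with h1 h2
    · have h3 : P₁.natDegree < D - i := by
        have : (i : ℕ) < D - P₁.natDegree := h1
        omega
      refine le_trans ?_ (h i)
      convert Nk_tS_gt (S := S) h3 using 2
    · have h3 := h i
      have h4 := Nk_tS_eq hP₁ hmin h0
      have e : D - (i : ℕ) = P₁.natDegree := by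
        rw [h2]
        show D - (D - P₁.natDegree) = P₁.natDegree
        omega
      rw [e] at h3 ⊢
      omega
    · exact (Nk_le_card _ _).trans ((card_tS _ _).trans hm)

/-! ### Uniform constants -/

theorem unif {ι : Type*} (s : Finset ι) (Q : ι → ℝ → ℝ → Prop)
    (hmono : ∀ i C δ C' δ', 0 ≤ C → C ≤ C' → δ' ≤ δ → Q i C δ → Q i C' δ')
    (h : ∀ i ∈ s, ∃ C δ : ℝ, 0 ≤ C ∧ 0 < δ ∧ δ ≤ 1 ∧ Q i C δ) :
    ∃ C δ : ℝ, 0 ≤ C ∧ 0 < δ ∧ δ ≤ 1 ∧ ∀ i ∈ s, Q i C δ := by
  classical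
  induction s using Finset.induction_on with
  | empty => exact ⟨0, 1, le_rfl, one_pos, le_rfl, fun i hi => absurd hi (Finset.notMem_empty i)⟩
  | insert i s hi ih =>
    obtain ⟨C, δ, h1, h2, h3, h4⟩ := ih fun j hj => h j (Finset.mem_insert_of_mem hj)
    obtain ⟨C', δ', h1', h2', h3', h4'⟩ := h i (Finset.mem_insert_self _ _)
    refine ⟨max C C', min δ δ', le_max_of_le_left h1, lt_min h2 h2', min_le_of_left_le h3, ?_⟩
    intro j hj
    rcases Finset.mem_insert.1 hj with rfl | hj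
    · exact hmono _ _ _ _ _ h1' (le_max_right _ _) (min_le_right _ _) h4'
    · exact hmono _ _ _ _ _ h1 (le_max_left _ _) (min_le_left _ _) (h4 j hj)

theorem rpow_mono_delta {N : ℕ} (hN : 1 ≤ N) {C C' δ δ' : ℝ} (hC0 : 0 ≤ C) (hC : C ≤ C')
    (hδ : δ' ≤ δ) : C * (N : ℝ) ^ (1 - δ) ≤ C' * (N : ℝ) ^ (1 - δ') := by
  have hN' : (1 : ℝ) ≤ N := by exact_mod_cast hN
  have h1 : (N : ℝ) ^ (1 - δ) ≤ (N : ℝ) ^ (1 - δ') :=
    Real.rpow_le_rpow_of_exponent_le hN' (by linarith)
  exact mul_le_mul hC h1 (by positivity) (hC0.trans hC)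

/-! ### Few zeros -/

/-- families with coefficients -/
structure Good (A : AddSubgroup B) (D m E e : ℕ) (w : Fin D → ℕ) (S : Finset B[X])
    (V : B[X] → ℕ → M) : Prop where
  adm : Adm A D S
  ne : S.Nonempty
  card : S.card ≤ m
  wt : WtLe D S w
  pd : ∀ P ∈ S, PD (E + 1) (V P)
  nz : ∀ P ∈ S, V P ≠ 0
  pd0 : (0 : B[X]) ∈ S → PD e (V 0)

variable {Ψ : B → M →+ M}

/-- the bound -/
def Bnd (A : AddSubgroup B) (Ψ : B → M →+ M) (D m E e : ℕ) (w : Fin D → ℕ) (C δ : ℝ) : Prop :=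
  ∀ (S : Finset B[X]) (V : B[X] → ℕ → M), Good A D m E e w S V → ∀ N : ℕ, 1 ≤ N →
    (zc (val Ψ S V) N : ℝ) ≤ C * (N : ℝ) ^ (1 - δ)

omit [IsDomain B] [CharZero B] in
open Classical in
theorem pd_dV {S : Finset B[X]} {V : B[X] → ℕ → M} {E : ℕ} (hV : ∀ P ∈ S, PD E (V P)) (h : ℕ)
    (Q : B[X]) : PD E (dV Ψ h S V Q) := by
  unfold dV
  refine PD.sub (PD.sum _ fun P hP => ?_) ?_
  · exact ((hV P (Finset.mem_filter.1 hP).1).shift h).map _
  · by_cases hQ : Q ∈ S
    · simp only [if_pos hQ]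
      exact hV Q hQ
    · simp only [if_neg hQ]
      exact PD.zero _

open Classical in
omit [IsDomain B] [CharZero B] in
theorem dV_zero (hA : ActOn A Ψ) {S : Finset B[X]} (hS : Adm A D S) {V : B[X] → ℕ → M} (h : ℕ)
    (h0 : (0 : B[X]) ∈ S) : dV Ψ h S V 0 = fun n => V 0 (n + h) - V 0 n := by
  funext n
  unfold dV
  have e1 : S.filter (fun P => sft h P = 0) = {0} := by
    ext P
    rw [Finset.mem_filter, Finset.mem_singleton]
    constructor
    · rintro ⟨h1, h2⟩
      refine eq_zero_of (hS.ev0 P h1) ?_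
      rw [← sft_nd h P, h2, natDegree_zero]
    · rintro rfl
      refine ⟨h0, ?_⟩
      exact eq_zero_of (sft_ev0 h 0) (by rw [sft_nd, natDegree_zero])
  rw [e1, Finset.sum_singleton, if_pos h0, eval_zero, hA.zero]

open Classical in
omit [IsDomain B] [CharZero B] in
theorem dV_zero' {S : Finset B[X]} (hS : Adm A D S) {V : B[X] → ℕ → M} (h : ℕ)
    (h0 : (0 : B[X]) ∉ S) : dV Ψ h S V 0 = 0 := by
  funext n
  unfold dV
  have e1 : S.filter (fun P => sft h P = 0) = ∅ := by
    rw [Finset.filter_eq_empty_iff]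
    intro P h1 h2
    have h3 : P = 0 := by
      refine eq_zero_of (hS.ev0 P h1) ?_
      rw [← sft_nd h P, h2, natDegree_zero]
    rw [h3] at h1
    exact h0 h1
  rw [e1, Finset.sum_empty, if_neg h0, sub_zero]
  rfl

open Classical in
/-- nonvanishing: there are few bad distances -/
theorem exists_nz (hinj : ∀ a ∈ A, a ≠ 0 → ∀ x, Ψ a x = x → x = 0)
    {m E : ℕ} {S : Finset B[X]} {V : B[X] → ℕ → M} (hS : Adm A D S) (hcard : S.card ≤ m)
    (hpd : ∀ P ∈ S, PD (E + 1) (V P)) (hnz : ∀ P ∈ S, V P ≠ 0)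
    {P : B[X]} (hP : P ∈ S) (hP0 : P ≠ 0) :
    ∃ H : Finset ℕ, H.card ≤ m ∧ ∀ h, 1 ≤ h → h ∉ H → ∃ Q ∈ dS h S, dV Ψ h S V Q ≠ 0 := by
  by_cases hd : 2 ≤ P.natDegree
  · -- degree at least two
    let sel : B[X] → ℕ := fun P' => if h : ∃ h, sft h P' = P then h.choose else 0
    refine ⟨S.image sel, Finset.card_image_le.trans hcard, fun h h1 h2 => ?_⟩
    refine ⟨P, Finset.mem_union_left _ hP, ?_⟩
    have h3 : S.filter (fun P' => sft h P' = P) = ∅ := by
      rw [Finset.filter_eq_empty_iff]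
      intro P' hP' h4
      apply h2
      rw [Finset.mem_image]
      refine ⟨P', hP', ?_⟩
      have hex : ∃ h, sft h P' = P := ⟨h, h4⟩
      have h5 : sft (sel P') P' = P := by
        show sft (if h : ∃ h, sft h P' = P then h.choose else 0) P' = P
        rw [dif_pos hex]
        exact hex.choose_spec
      refine sft_unique (P := P') ?_ (h5.trans h4.symm)
      rw [← sft_nd h P', h4]
      exact hd
    have h4 : dV Ψ h S V P = fun n => - V P n := by
      funext n
      unfold dV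
      rw [h3, Finset.sum_empty, if_pos hP, zero_sub]
    rw [h4]
    intro h5
    apply hnz P hP
    funext n
    have := congrFun h5 n
    exact neg_eq_zero.1 this
  · -- degree one
    refine ⟨∅, by simp, fun h h1 _ => ?_⟩
    refine ⟨P, Finset.mem_union_left _ hP, ?_⟩
    have hsP := sft_one h (hS.ev0 P hP) (by omega)
    have h3 : S.filter (fun P' => sft h P' = P) = {P} := by
      ext P'
      rw [Finset.mem_filter, Finset.mem_singleton]
      constructor
      · rintro ⟨h4, h5⟩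
        exact sft_inj h (hS.ev0 P' h4) (hS.ev0 P hP) (h5.trans hsP.symm)
      · rintro rfl
        exact ⟨hP, hsP⟩
    have h4 : dV Ψ h S V P = fun n => Ψ (P.eval (h : B)) (V P (n + h)) - V P n := by
      funext n
      unfold dV
      rw [h3, Finset.sum_singleton, if_pos hP]
    rw [h4]
    refine ne_of_inj (hpd P hP) (hnz P hP) _ (hinj _ (hS.mem P hP h) ?_) h
    -- the value is not zero
    have h5 := eq_X_add_C_of_natDegree_le_one (show P.natDegree ≤ 1 by omega)
    have h6 : P.coeff 0 = 0 := by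
      rw [coeff_zero_eq_eval_zero]
      exact hS.ev0 P hP
    rw [h6, C_0, add_zero] at h5
    rw [h5, eval_mul, eval_C, eval_X]
    refine mul_ne_zero ?_ (by exact_mod_cast (by omega : h ≠ 0))
    intro h7
    apply hP0
    rw [h5, h7, C_0, zero_mul]

/-- **Few zeros.** -/
theorem few_zeros (hA : ActOn A Ψ) (hinj : ∀ a ∈ A, a ≠ 0 → ∀ x, Ψ a x = x → x = 0)
    (D E : ℕ) (hchar : (∀ h : ℕ, 1 ≤ h → ∀ x : M, h • x = 0 → x = 0) ∨ E = 0)
    (w : Fin D → ℕ) (e m : ℕ) :
    ∃ C δ : ℝ, 0 ≤ C ∧ 0 < δ ∧ δ ≤ 1 ∧ Bnd A Ψ D m E e w C δ := by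
  classical
  -- induction on the weight
  suffices H : ∀ w : Lex (Fin D → ℕ), ∀ e m : ℕ,
      ∃ C δ : ℝ, 0 ≤ C ∧ 0 < δ ∧ δ ≤ 1 ∧ Bnd A Ψ D m E e (ofLex w) C δ from H (toLex w) e m
  intro w
  induction w using WellFoundedLT.induction with
  | ind w IH =>
  set w' : Fin D → ℕ := ofLex w with hw'
  intro e
  induction e with
  | zero =>
    intro m
    obtain ⟨C, δ, hC, hδ0, hδ1, hQ⟩ := unif (Finset.univ : Finset (Fin D))
      (fun i C δ => 1 ≤ w' i → Bnd A Ψ D m E (E + 1) (wdn w' i m) C δ)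
      (fun i C δ C' δ' hC0 hCC hδδ h h1 S V hG N hN =>
        (h h1 S V hG N hN).trans (rpow_mono_delta hN hC0 hCC hδδ))
      (fun i _ => by
        by_cases hi : 1 ≤ w' i
        · obtain ⟨C, δ, h1, h2, h3, h4⟩ := IH (toLex (wdn w' i m)) (wdn_lt hi m) (E + 1) m
          exact ⟨C, δ, h1, h2, h3, fun _ => h4⟩
        · exact ⟨0, 1, le_rfl, one_pos, le_rfl, fun h => absurd h hi⟩)
    refine ⟨C, δ, hC, hδ0, hδ1, ?_⟩
    intro S V hG N hN
    have h0S : (0 : B[X]) ∉ S := fun h => hG.nz 0 h (hG.pd0 h)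
    obtain ⟨P₁, hP₁, hmin⟩ := Finset.exists_min_image S natDegree hG.ne
    have hd0 : P₁.natDegree ≠ 0 := by
      intro h
      have := eq_zero_of (hG.adm.ev0 P₁ hP₁) h
      rw [this] at hP₁
      exact h0S hP₁
    obtain ⟨i₁, hi₁, hwt⟩ := hG.wt.tS hP₁ hmin hd0 (hG.adm.deg P₁ hP₁) hG.card
    have hG' : Good A D m E (E + 1) (wdn w' i₁ m) (tS P₁ S) (fun Q => V (Q + P₁)) := by
      refine ⟨hG.adm.tS hP₁, hG.ne.image _, (card_tS _ _).trans hG.card, hwt, ?_, ?_, ?_⟩
      · intro P hP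
        unfold tS at hP
        rw [Finset.mem_image] at hP
        obtain ⟨Q, hQ', rfl⟩ := hP
        show PD (E + 1) (V (Q - P₁ + P₁))
        rw [sub_add_cancel]
        exact hG.pd Q hQ'
      · intro P hP
        unfold tS at hP
        rw [Finset.mem_image] at hP
        obtain ⟨Q, hQ', rfl⟩ := hP
        show V (Q - P₁ + P₁) ≠ 0
        rw [sub_add_cancel]
        exact hG.nz Q hQ'
      · intro _
        show PD (E + 1) (V (0 + P₁))
        rw [zero_add]
        exact hG.pd P₁ hP₁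
    refine le_trans ?_ (hQ i₁ (Finset.mem_univ _) hi₁ _ _ hG' N hN)
    exact_mod_cast zc_mono (val_tS_zero hA hG.adm.mem (hG.adm.mem P₁ hP₁) V) N
  | succ e ihe =>
    intro m
    obtain ⟨C, δ, hC, hδ0, hδ1, hB⟩ := ihe (2 * m)
    refine ⟨3 + 2 * C + 2 * m, δ / 2, by positivity, by linarith, by linarith, ?_⟩
    intro S V hG N hN
    -- the nonvanishing of the family of the difference
    have hmain : (∀ n, val Ψ S V n ≠ 0) ∨ ∃ H : Finset ℕ, H.card ≤ m ∧
        ∀ h, 1 ≤ h → h ∉ H → ∃ Q ∈ dS h S, dV Ψ h S V Q ≠ 0 := by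
      by_cases hex : ∃ P ∈ S, P ≠ 0
      · obtain ⟨P, hP, hP0⟩ := hex
        exact Or.inr (exists_nz hinj hG.adm hG.card hG.pd hG.nz hP hP0)
      · push Not at hex
        obtain ⟨P, hP⟩ := hG.ne
        have hP0 := hex P hP
        rw [hP0] at hP
        have hS0 : S = {0} := by
          ext Q
          rw [Finset.mem_singleton]
          exact ⟨hex Q, fun h => h ▸ hP⟩
        by_cases hdl : dl (V 0) = 0
        · left
          intro n
          unfold val
          rw [hS0, Finset.sum_singleton, eval_zero, hA.zero, const_of_dl hdl n]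
          intro h1
          apply hG.nz 0 hP
          funext k
          rw [const_of_dl hdl k, h1]
          rfl
        · right
          have htf := hchar.resolve_right (by
            rintro rfl
            exact hdl (hG.pd 0 hP))
          refine ⟨∅, by simp, fun h h1 _ => ⟨0, Finset.mem_union_left _ hP, ?_⟩⟩
          rw [dV_zero hA hG.adm h hP]
          exact ne_of_tf (hG.pd 0 hP) hdl htf h1
    rcases hmain with h1 | ⟨H, hH, hne⟩
    · have h2 : zc (val Ψ S V) N = 0 := by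
        unfold zc
        rw [Finset.card_eq_zero, Finset.filter_eq_empty_iff]
        intro n _
        exact h1 n
      rw [h2]
      push_cast
      positivity
    · refine zc_of_pairs (b := m) hC hδ1 hN H hH fun h h1 h2 => ?_
      set T := (dS h S).filter (fun Q => dV Ψ h S V Q ≠ 0) with hT
      have hTS : T ⊆ dS h S := Finset.filter_subset _ _
      have hG' : Good A D (2 * m) E e w' T (dV Ψ h S V) := by
        refine ⟨(hG.adm.dS h).mono hTS, ?_, ?_, (hG.wt.dS h).mono hTS, ?_, ?_, ?_⟩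
        · obtain ⟨Q, hQ, hQ0⟩ := hne h h1 h2
          exact ⟨Q, Finset.mem_filter.2 ⟨hQ, hQ0⟩⟩
        · have a1 := Finset.card_le_card hTS
          have a2 := card_dS h S
          have a3 := hG.card
          omega
        · intro P _
          exact pd_dV hG.pd h P
        · intro P hP
          exact (Finset.mem_filter.1 hP).2
        · intro h3
          by_cases h4 : (0 : B[X]) ∈ S
          · rw [dV_zero hA hG.adm h h4]
            exact (hG.pd0 h4).diff h
          · exact absurd (dV_zero' hG.adm h h4) (Finset.mem_filter.1 h3).2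
      have e1 : (fun n => val Ψ S V (n + h) - val Ψ S V n) = val Ψ T (dV Ψ h S V) := by
        funext n
        rw [val_diff hA hG.adm.mem, hT, val_filter]
      rw [e1]
      exact hB T _ hG' N hN

/-! ### Fixed sums are polynomial -/

open Classical in
theorem poly_of_fixed (hA : ActOn A Ψ) (K : AddSubgroup M) (hK : ∀ a ∈ A, ∀ x ∈ K, Ψ a x = x)
    (D : ℕ) (w : Fin D → ℕ) (S : Finset B[X]) (V : B[X] → ℕ → M) (hS : Adm A D S)
    (hwt : WtLe D S w) (hV : ∀ P ∈ S, PD 1 (V P)) (hF : ∀ n, val Ψ S V n ∈ K) :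
    ∃ T, PD T (val Ψ S V) := by
  suffices H : ∀ w : Lex (Fin D → ℕ), ∀ (S : Finset B[X]) (V : B[X] → ℕ → M), Adm A D S →
      WtLe D S (ofLex w) → (∀ P ∈ S, PD 1 (V P)) → (∀ n, val Ψ S V n ∈ K) →
      ∃ T, PD T (val Ψ S V) from H (toLex w) S V hS hwt hV hF
  intro w
  induction w using WellFoundedLT.induction with
  | ind w IH =>
  intro S V hS hwt hV hF
  -- the first difference, without the class of zero
  set G : ℕ → M := val Ψ (dS 1 S) (dV Ψ 1 S V) with hG
  have hGF : ∀ n, G n = val Ψ S V (n + 1) - val Ψ S V n := fun n => (val_diff hA hS.mem V 1 n).symm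
  have hGK : ∀ n, G n ∈ K := fun n => by
    rw [hGF]
    exact K.sub_mem (hF _) (hF _)
  suffices hT : ∃ T, PD T G by
    obtain ⟨T, hT⟩ := hT
    refine ⟨T + 1, PD.of_dl ?_⟩
    have e : dl (val Ψ S V) = G := by
      funext n
      exact (hGF n).symm
    rw [e]
    exact hT
  set S₁ := (dS 1 S).filter (fun Q => dV Ψ 1 S V Q ≠ 0) with hS₁
  have hG1 : G = val Ψ S₁ (dV Ψ 1 S V) := by
    funext n
    rw [hG, hS₁, val_filter]
  have hsub : S₁ ⊆ dS 1 S := Finset.filter_subset _ _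
  have hadm : Adm A D S₁ := (hS.dS 1).mono hsub
  have hwt1 : WtLe D S₁ (ofLex w) := (hwt.dS 1).mono hsub
  have hV1 : ∀ Q, PD 1 (dV Ψ 1 S V Q) := fun Q => pd_dV hV 1 Q
  have h0 : (0 : B[X]) ∉ S₁ := by
    intro h
    apply (Finset.mem_filter.1 h).2
    by_cases h4 : (0 : B[X]) ∈ S
    · rw [dV_zero hA hS 1 h4]
      exact (hV 0 h4).diff 1
    · exact dV_zero' hS 1 h4
  rcases S₁.eq_empty_or_nonempty with he | hne
  · refine ⟨0, ?_⟩
    rw [hG1, he]
    funext n
    show val Ψ ∅ (dV Ψ 1 S V) n = 0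
    unfold val
    rw [Finset.sum_empty]
  obtain ⟨P₁, hP₁, hmin⟩ := Finset.exists_min_image S₁ natDegree hne
  have hd0 : P₁.natDegree ≠ 0 := by
    intro h
    have := eq_zero_of (hadm.ev0 P₁ hP₁) h
    rw [this] at hP₁
    exact h0 hP₁
  obtain ⟨i₁, hi₁, hwt2⟩ := hwt1.tS hP₁ hmin hd0 (hadm.deg P₁ hP₁) (le_refl S₁.card)
  have hval : val Ψ (tS P₁ S₁) (fun Q => dV Ψ 1 S V (Q + P₁)) = G := by
    funext n
    rw [val_tS hA hadm.mem (hadm.mem P₁ hP₁), ← hG1]
    exact hK _ (A.neg_mem (hadm.mem P₁ hP₁ n)) _ (hGK n)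
  have := IH (toLex (wdn (ofLex w) i₁ S₁.card)) (wdn_lt hi₁ _) (tS P₁ S₁)
    (fun Q => dV Ψ 1 S V (Q + P₁)) (hadm.tS hP₁) hwt2 (fun P _ => hV1 _) (fun n => by
      rw [hval]
      exact hGK n)
  rwa [hval] at this

end Pool.Agent.Helper26K1.AP
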