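import Pool.Agent.Helper26K1.AP.Cop
import Pool.Agent.TH784.AA.Grp

/-!
# The dichotomy for sums over polynomial orbits of an action of `ℤ ^ d`
-/

set_option autoImplicit false

open Polynomial Finset

noncomputable section

namespace Pool.Agent.Helper26K1.AP

open Pool.Agent.TH784.AA (Copr irr_copr IsAct)

section sub

variable {R M : Type*} [CommRing R] [AddCommGroup M] [Module R M]

/-- the values of `b` are rarely congruent to a given element modulo `L` -/
def FewL (L : Submodule R M) (b : ℕ → M) : Prop :=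
  ∃ C δ : ℝ, 0 ≤ C ∧ 0 < δ ∧ δ ≤ 1 ∧ ∀ c : M, ∀ N : ℕ, 1 ≤ N →
    (zc (fun n => L.mkQ (b n - c)) N : ℝ) ≤ C * (N : ℝ) ^ (1 - δ)

/-- the dichotomy modulo `L` -/
def DicL (L : Submodule R M) (b : ℕ → M) : Prop :=
  ∃ q : ℕ, 1 ≤ q ∧ ∀ r : ℕ, (∀ n, b (r + q * n) - b r ∈ L) ∨ FewL L (fun n => b (r + q * n))

theorem FewL.mono {L L' : Submodule R M} (hL : L' ≤ L) {b : ℕ → M} (h : FewL L b) :
    FewL L' b := by
  obtain ⟨C, δ, h1, h2, h3, h4⟩ := h
  refine ⟨C, δ, h1, h2, h3, fun c N hN => le_trans ?_ (h4 c N hN)⟩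
  have := zc_mono (f := fun n => L'.mkQ (b n - c)) (g := fun n => L.mkQ (b n - c)) (fun n hn => by
    rw [Submodule.mkQ_apply, Submodule.Quotient.mk_eq_zero] at hn ⊢
    exact hL hn) N
  exact_mod_cast this

theorem zc_sub {M' : Type*} [AddCommGroup M'] (f : ℕ → M') {q : ℕ} (hq : 1 ≤ q) (N : ℕ) :
    zc (fun n => f (q * n)) N ≤ zc f (q * N) := by
  classical
  unfold zc
  refine Finset.card_le_card_of_injOn (fun n => q * n) ?_ ?_
  · intro n hn
    rw [Finset.mem_coe, Finset.mem_filter, Finset.mem_range] at *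
    exact ⟨Nat.mul_lt_mul_of_pos_left hn.1 hq, hn.2⟩
  · intro n _ n' _ e
    exact Nat.eq_of_mul_eq_mul_left hq e

theorem FewL.sub {L : Submodule R M} {b : ℕ → M} (h : FewL L b) {q : ℕ} (hq : 1 ≤ q) :
    FewL L (fun n => b (q * n)) := by
  obtain ⟨C, δ, h1, h2, h3, h4⟩ := h
  refine ⟨C * (q : ℝ) ^ (1 - δ), δ, by positivity, h2, h3, fun c N hN => ?_⟩
  have e1 := zc_sub (fun n => L.mkQ (b n - c)) hq N
  have e2 := h4 c (q * N) (Nat.mul_pos hq hN)
  rw [mul_assoc, ← Real.mul_rpow (by positivity) (by positivity)]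
  refine le_trans ?_ (e2.trans ?_)
  · exact_mod_cast e1
  · push_cast
    exact le_rfl

theorem DicL.inf {L₁ L₂ : Submodule R M} {b : ℕ → M} (h₁ : DicL L₁ b) (h₂ : DicL L₂ b) :
    DicL (L₁ ⊓ L₂) b := by
  obtain ⟨q₁, hq₁, h₁⟩ := h₁
  obtain ⟨q₂, hq₂, h₂⟩ := h₂
  refine ⟨q₁ * q₂, Nat.mul_pos hq₁ hq₂, fun r => ?_⟩
  have e1 : ∀ n, r + q₁ * q₂ * n = r + q₁ * (q₂ * n) := fun n => by ring
  have e2 : ∀ n, r + q₁ * q₂ * n = r + q₂ * (q₁ * n) := fun n => by ring
  rcases h₁ r with a1 | a1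
  · rcases h₂ r with a2 | a2
    · left
      intro n
      refine ⟨?_, ?_⟩
      · rw [e1]
        exact a1 _
      · rw [e2]
        exact a2 _
    · right
      have := (a2.sub hq₁).mono (inf_le_right (a := L₁))
      simp only [e2]
      exact this
  · right
    have := (a1.sub hq₂).mono (inf_le_left (b := L₂))
    simp only [e1]
    exact this

variable [IsNoetherianRing R] [IsNoetherian R M] {d : ℕ} (ψ : Multiplicative (Fin d → ℤ) →* R)
  {J : Type*} [Fintype J]

omit [IsNoetherianRing R] [IsNoetherian R M] in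
theorem orb_mkQ (L : Submodule R M) (P : J → Fin d → ℤ[X]) (w : J → M) (n : ℕ) :
    L.mkQ (orb ψ P w n) = orb ψ P (fun j => L.mkQ (w j)) n := by
  unfold orb
  rw [map_sum]
  exact Finset.sum_congr rfl fun j _ => map_smul _ _ _

theorem dic_irr {L : Submodule R M} (hL : InfIrred L) (P : J → Fin d → ℤ[X]) (w : J → M) :
    DicL L (orb ψ P w) := by
  obtain ⟨q, hq, h⟩ := cop_dich ψ (irr_copr hL) P (fun j => L.mkQ (w j))
  refine ⟨q, hq, fun r => ?_⟩
  rcases h r with h1 | ⟨C, δ, h1, h2, h3, h4⟩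
  · left
    intro n
    rw [← Submodule.Quotient.mk_eq_zero, ← Submodule.mkQ_apply, map_sub, orb_mkQ, orb_mkQ, h1,
      sub_self]
  · right
    refine ⟨C, δ, h1, h2, h3, fun c N hN => ?_⟩
    have e := h4 (L.mkQ c) N hN
    have e1 : (fun n => L.mkQ (orb ψ P w (r + q * n) - c)) =
        fun n => orb ψ P (fun j => L.mkQ (w j)) (r + q * n) - L.mkQ c := by
      funext n
      rw [map_sub, orb_mkQ]
    rw [e1]
    exact e

theorem dic_bot (P : J → Fin d → ℤ[X]) (w : J → M) :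
    DicL (⊥ : Submodule R M) (orb ψ P w) := by
  classical
  obtain ⟨s, hs, h⟩ := exists_infIrred_decomposition (⊥ : Submodule R M)
  rw [← hs]
  clear hs
  induction s using Finset.induction_on with
  | empty =>
    refine ⟨1, le_rfl, fun r => Or.inl fun n => ?_⟩
    rw [Finset.inf_empty]
    exact Submodule.mem_top
  | insert L s _ ih =>
    rw [Finset.inf_insert]
    exact (dic_irr ψ (h (Finset.mem_insert_self _ _)) P w).inf
      (ih fun {L'} hL' => h (Finset.mem_insert_of_mem hL'))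

end sub

section act

variable {Q : Type*} [AddCommGroup Q] {d : ℕ} {Ψ : (Fin d → ℤ) → Q →+ Q} {J : Type*} [Fintype J]

/-- sums over polynomial orbits -/
def so (Ψ : (Fin d → ℤ) → Q →+ Q) (P : J → Fin d → ℤ[X]) (w : J → Q) (n : ℕ) : Q :=
  ∑ j, Ψ (ex (P j) n) (w j)

/-- **The dichotomy.** -/
theorem dic_poly (h : IsAct Ψ) (P : J → Fin d → ℤ[X]) (w : J → Q) :
    ∃ q : ℕ, 1 ≤ q ∧ ∀ r : ℕ, (∀ n, so Ψ P w (r + q * n) = so Ψ P w r) ∨
      ∃ C δ : ℝ, 0 ≤ C ∧ 0 < δ ∧ δ ≤ 1 ∧ ∀ c : Q, ∀ N : ℕ, 1 ≤ N →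
        (zc (fun n => so Ψ P w (r + q * n) - c) N : ℝ) ≤ C * (N : ℝ) ^ (1 - δ) := by
  classical
  let R := MonoidAlgebra ℤ (Multiplicative (Fin d → ℤ))
  let _ : Module R Q := Module.compHom Q h.hom.toRingHom
  have hAfg : AddGroup.FG (Fin d → ℤ) := Module.Finite.iff_addGroup_fg.1 inferInstance
  have hfg : Monoid.FG (Multiplicative (Fin d → ℤ)) :=
    AddMonoid.fg_iff_mul_fg.1 (AddGroup.fg_iff_addMonoid_fg.1 inferInstance)
  have hft : Algebra.FiniteType ℤ R := MonoidAlgebra.finiteType_of_fg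
  have hN : IsNoetherianRing R := Algebra.FiniteType.isNoetherianRing ℤ R
  let M : Submodule R Q := Submodule.span R (Set.range w)
  have hM : IsNoetherian R M := isNoetherian_span_of_finite R (Set.finite_range w)
  let ψ : Multiplicative (Fin d → ℤ) →* R := MonoidAlgebra.of ℤ (Multiplicative (Fin d → ℤ))
  let χ : J → M := fun j => ⟨w j, Submodule.subset_span ⟨j, rfl⟩⟩
  have hsm : ∀ (a : Fin d → ℤ) (m : Q), ψ (Multiplicative.ofAdd a) • m = Ψ a m :=
    fun a m => h.hom_of a m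
  have hes : ∀ n, ((orb ψ P χ n : M) : Q) = so Ψ P w n := by
    intro n
    unfold orb so
    rw [Submodule.coe_sum]
    refine Finset.sum_congr rfl fun j _ => ?_
    rw [Submodule.coe_smul]
    exact hsm _ _
  obtain ⟨q, hq, key⟩ := dic_bot ψ P χ
  refine ⟨q, hq, fun r => ?_⟩
  rcases key r with h1 | ⟨C, δ, h1, h2, h3, h4⟩
  · left
    intro n
    have h2 := h1 n
    rw [Submodule.mem_bot, sub_eq_zero] at h2
    rw [← hes, ← hes, h2]
  · right
    refine ⟨C, δ, h1, h2, h3, fun c N hN => ?_⟩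
    by_cases hc : c ∈ M
    · have e := h4 ⟨c, hc⟩ N hN
      refine le_trans ?_ e
      have := zc_mono (f := fun n => so Ψ P w (r + q * n) - c)
        (g := fun n => (⊥ : Submodule R M).mkQ (orb ψ P χ (r + q * n) - ⟨c, hc⟩)) (fun n hn => by
          rw [Submodule.mkQ_apply, Submodule.Quotient.mk_eq_zero, Submodule.mem_bot, sub_eq_zero]
          apply Subtype.ext
          rw [hes]
          exact sub_eq_zero.1 hn) N
      exact_mod_cast this
    · have e : zc (fun n => so Ψ P w (r + q * n) - c) N = 0 := by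
        unfold zc
        rw [Finset.card_eq_zero, Finset.filter_eq_empty_iff]
        intro n _ hn
        apply hc
        rw [← sub_eq_zero.1 hn, ← hes]
        exact Subtype.coe_prop _
      rw [e]
      push_cast
      positivity

end act

end Pool.Agent.Helper26K1.AP
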