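import Pool.Agent.Helper26K1.AP.Dif

/-!
# Polynomial sequences in nilpotent groups

Adapted from `Pool/Agent/Helper28/LCN/Seq.lean` and `LcsComm.lean` (sequences on `ℕ`, steps `1`).
-/

set_option autoImplicit false

open scoped commutatorElement

namespace Pool.Agent.Helper26K1.AP

section lcs

theorem lcs_comm_rot {H : Type*} [Group H] (N H₁ H₂ H₃ : Subgroup H) [N.Normal]
    (h1 : ⁅⁅H₂, H₃⁆, H₁⁆ ≤ N) (h2 : ⁅⁅H₃, H₁⁆, H₂⁆ ≤ N) : ⁅⁅H₁, H₂⁆, H₃⁆ ≤ N := by
  have key : ∀ K : Subgroup H, K ≤ N ↔ K.map (QuotientGroup.mk' N) = ⊥ := by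
    intro K
    rw [Subgroup.map_eq_bot_iff, QuotientGroup.ker_mk']
  rw [key, Subgroup.map_commutator, Subgroup.map_commutator] at h1 h2 ⊢
  exact Subgroup.commutator_commutator_eq_bot_of_rotate h1 h2

theorem lcs_comm_top {H : Type*} [Group H] (b : ℕ) : ∀ a : ℕ,
    ⁅(⊤ : Subgroup H).lowerCentralSeries a, (⊤ : Subgroup H).lowerCentralSeries b⁆ ≤
      (⊤ : Subgroup H).lowerCentralSeries (a + b + 1) := by
  induction b with
  | zero => intro a; exact le_of_eq rfl
  | succ b ih =>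
    intro a
    rw [Subgroup.commutator_comm, Subgroup.lowerCentralSeries_succ]
    refine lcs_comm_rot _ _ _ _ ?_ ?_
    · rw [Subgroup.commutator_comm (⊤ : Subgroup H), ← Subgroup.lowerCentralSeries_succ]
      have := ih (a + 1)
      rwa [show a + 1 + b + 1 = a + (b + 1) + 1 by omega] at this
    · rw [show a + (b + 1) + 1 = (a + b + 1) + 1 by omega, Subgroup.lowerCentralSeries_succ]
      exact Subgroup.commutator_mono (ih a) le_rfl

/-- `[γ_{a+1}(S), γ_{b+1}(S)] ≤ γ_{a+b+2}(S)` -/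
theorem lcs_comm {G : Type*} [Group G] (S : Subgroup G) (a b : ℕ) :
    ⁅S.lowerCentralSeries a, S.lowerCentralSeries b⁆ ≤ S.lowerCentralSeries (a + b + 1) := by
  rw [← Subgroup.top_subtype_lowerCentralSeries S a, ← Subgroup.top_subtype_lowerCentralSeries S b,
    ← Subgroup.top_subtype_lowerCentralSeries S (a + b + 1), ← Subgroup.map_commutator]
  exact Subgroup.map_mono (lcs_comm_top b a)

end lcs

variable {G : Type*} [Group G]

/-- left difference of a sequence with values in a group -/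
def dd (f : ℕ → G) : ℕ → G := fun n => f (n + 1) * (f n)⁻¹

/-- `Qp Φ m i f`: for all `k ≤ m`, the `k`-th difference of `f` has values in `Φ (i + k)` -/
def Qp (Φ : ℕ → Subgroup G) : ℕ → ℕ → (ℕ → G) → Prop
  | 0, i, f => ∀ n, f n ∈ Φ i
  | m + 1, i, f => (∀ n, f n ∈ Φ i) ∧ Qp Φ m (i + 1) (dd f)

theorem Q_drop (Φ : ℕ → Subgroup G) : ∀ (m i : ℕ) (f : ℕ → G), Qp Φ (m + 1) i f → Qp Φ m i f
  | 0, _, _, h => h.1
  | m + 1, i, f, h => ⟨h.1, Q_drop Φ m (i + 1) (dd f) h.2⟩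

theorem Q_weak (Φ : ℕ → Subgroup G) (hanti : ∀ i, Φ (i + 1) ≤ Φ i) :
    ∀ (m i : ℕ) (f : ℕ → G), Qp Φ m (i + 1) f → Qp Φ m i f
  | 0, i, _, h => fun n => hanti i (h n)
  | m + 1, i, f, h => ⟨fun n => hanti i (h.1 n), Q_weak Φ hanti m (i + 1) (dd f) h.2⟩

theorem Q_weakk (Φ : ℕ → Subgroup G) (hanti : ∀ i, Φ (i + 1) ≤ Φ i) (m i : ℕ) (f : ℕ → G) :
    ∀ k : ℕ, Qp Φ m (i + k) f → Qp Φ m i f
  | 0, h => h
  | k + 1, h => Q_weakk Φ hanti m i f k (Q_weak Φ hanti m (i + k) f h)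

theorem Q_le (Φ : ℕ → Subgroup G) (hanti : ∀ i, Φ (i + 1) ≤ Φ i) (m : ℕ) {i j : ℕ} (hij : i ≤ j)
    (f : ℕ → G) (h : Qp Φ m j f) : Qp Φ m i f := by
  obtain ⟨k, rfl⟩ := Nat.exists_eq_add_of_le hij
  exact Q_weakk Φ hanti m i f k h

/-- Lazard–Leibman: polynomial sequences are closed under products, inverses and commutators. -/
theorem Q_all (Φ : ℕ → Subgroup G) (hanti : ∀ i, Φ (i + 1) ≤ Φ i)
    (hcomm : ∀ i j, ∀ a ∈ Φ i, ∀ b ∈ Φ j, ⁅a, b⁆ ∈ Φ (i + j)) (m : ℕ) :
    (∀ i f g, Qp Φ m i f → Qp Φ m i g → Qp Φ m i (fun n => f n * g n)) ∧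
    (∀ i f, Qp Φ m i f → Qp Φ m i (fun n => (f n)⁻¹)) ∧
    (∀ i j f g, Qp Φ m i f → Qp Φ m j g → Qp Φ m (i + j) (fun n => ⁅f n, g n⁆)) := by
  induction m with
  | zero =>
    refine ⟨fun i f g hf hg n => (Φ i).mul_mem (hf n) (hg n), fun i f hf n => (Φ i).inv_mem (hf n),
      fun i j f g hf hg n => hcomm i j _ (hf n) _ (hg n)⟩
  | succ m ih =>
    obtain ⟨ihm, ihi, ihc⟩ := ih
    refine ⟨?_, ?_, ?_⟩
    · intro i f g hf hg
      refine ⟨fun n => (Φ i).mul_mem (hf.1 n) (hg.1 n), ?_⟩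
      have hu := hf.2
      have hv := hg.2
      have hf' := Q_drop Φ m i f hf
      have hc : Qp Φ m (i + 1) (fun n => ⁅f n, dd g n⁆) :=
        Q_le Φ hanti m (by omega) _ (ihc i (i + 1) f (dd g) hf' hv)
      have h1 := ihm (i + 1) _ _ hu hc
      have h2 := ihm (i + 1) _ _ h1 hv
      have he : dd (fun n => f n * g n) = fun n => (dd f n * ⁅f n, dd g n⁆) * dd g n := by
        funext n
        simp only [dd, commutatorElement_def]
        group
      rw [he]
      exact h2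
    · intro i f hf
      refine ⟨fun n => (Φ i).inv_mem (hf.1 n), ?_⟩
      have hu := hf.2
      have hf' := Q_drop Φ m i f hf
      have hui := ihi (i + 1) _ hu
      have hfi := ihi i _ hf'
      have hc : Qp Φ m (i + 1) (fun n => ⁅(f n)⁻¹, (dd f n)⁻¹⁆) :=
        Q_le Φ hanti m (by omega) _ (ihc i (i + 1) _ _ hfi hui)
      have h1 := ihm (i + 1) _ _ hc hui
      have he : dd (fun n => (f n)⁻¹) = fun n => ⁅(f n)⁻¹, (dd f n)⁻¹⁆ * (dd f n)⁻¹ := by
        funext n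
        simp only [dd, commutatorElement_def]
        group
      rw [he]
      exact h1
    · intro i j f g hf hg
      refine ⟨fun n => hcomm i j _ (hf.1 n) _ (hg.1 n), ?_⟩
      have hu := hf.2
      have hv := hg.2
      have hf' := Q_drop Φ m i f hf
      have hg' := Q_drop Φ m j g hg
      have hvj := Q_weak Φ hanti m j _ hv
      have hvg := ihm j _ _ hvj hg'
      have hfvg := ihc i j _ _ hf' hvg
      have hfg := ihc i j _ _ hf' hg'
      have huvg := ihc (i + 1) j _ _ hu hvg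
      have t1 : Qp Φ m (i + j + 1) (fun n => ⁅dd f n, ⁅f n, dd g n * g n⁆⁆) :=
        Q_le Φ hanti m (by omega) _ (ihc (i + 1) (i + j) _ _ hu hfvg)
      have t2 : Qp Φ m (i + j + 1) (fun n => ⁅f n, dd g n⁆) :=
        Q_le Φ hanti m (by omega) _ (ihc i (j + 1) _ _ hf' hv)
      have t3 : Qp Φ m (i + j + 1) (fun n => ⁅dd g n, ⁅f n, g n⁆⁆) :=
        Q_le Φ hanti m (by omega) _ (ihc (j + 1) (i + j) _ _ hv hfg)
      have t4 : Qp Φ m (i + j + 1) (fun n => ⁅⁅f n, g n⁆, ⁅dd f n, dd g n * g n⁆⁆) :=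
        Q_le Φ hanti m (by omega) _ (ihc (i + j) (i + 1 + j) _ _ hfg huvg)
      have t5 : Qp Φ m (i + j + 1) (fun n => ⁅dd f n, dd g n * g n⁆) :=
        Q_le Φ hanti m (by omega) _ huvg
      have h := ihm _ _ _ (ihm _ _ _ (ihm _ _ _ (ihm _ _ _ t1 t2) t3) t4) t5
      have he : dd (fun n => ⁅f n, g n⁆) = fun n => (((⁅dd f n, ⁅f n, dd g n * g n⁆⁆ *
          ⁅f n, dd g n⁆) * ⁅dd g n, ⁅f n, g n⁆⁆) *
          ⁅⁅f n, g n⁆, ⁅dd f n, dd g n * g n⁆⁆) * ⁅dd f n, dd g n * g n⁆ := by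
        funext n
        simp only [dd, commutatorElement_def]
        group
      rw [he]
      exact h

/-- the filtration -/
def fil (S : Subgroup G) (D : ℕ) (i : ℕ) : Subgroup G := S.lowerCentralSeries ((i - 1) / D)

theorem fil_anti (S : Subgroup G) (D i : ℕ) : fil S D (i + 1) ≤ fil S D i :=
  S.lowerCentralSeries_antitone (Nat.div_le_div_right (by omega))

theorem fil_comm (S : Subgroup G) {D : ℕ} (hD : 1 ≤ D) (i j : ℕ) :
    ∀ a ∈ fil S D i, ∀ b ∈ fil S D j, ⁅a, b⁆ ∈ fil S D (i + j) := by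
  intro a ha b hb
  have h1 := lcs_comm S ((i - 1) / D) ((j - 1) / D) (Subgroup.commutator_mem_commutator ha hb)
  refine S.lowerCentralSeries_antitone ?_ h1
  rcases Nat.eq_zero_or_pos i with hi | hi
  · subst hi
    rw [zero_add]
    exact (Nat.le_add_left _ _).trans (Nat.le_add_right _ 1)
  rcases Nat.eq_zero_or_pos j with hj | hj
  · subst hj
    rw [add_zero]
    exact (Nat.le_add_right _ _).trans (Nat.le_add_right _ 1)
  have e : i + j - 1 = (i - 1) + (j - 1) + 1 := by omega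
  rw [e]
  have h2 := Nat.div_add_mod (i - 1) D
  have h3 := Nat.div_add_mod (j - 1) D
  have h4 := Nat.mod_lt (i - 1) (show D > 0 by omega)
  have h5 := Nat.mod_lt (j - 1) (show D > 0 by omega)
  rw [← Nat.lt_succ_iff, Nat.div_lt_iff_lt_mul (by omega)]
  have h6 : ((i - 1) / D + (j - 1) / D + 1).succ * D =
      D * ((i - 1) / D) + D * ((j - 1) / D) + D + D := by
    rw [Nat.succ_mul]
    ring
  rw [h6]
  omega

theorem fil_bot (S : Subgroup G) {c : ℕ} (hc : S.lowerCentralSeries c = ⊥) {D : ℕ} (hD : 1 ≤ D)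
    {i : ℕ} (hi : c * D + 1 ≤ i) : fil S D i = ⊥ := by
  rw [eq_bot_iff, ← hc]
  refine S.lowerCentralSeries_antitone ?_
  rw [Nat.le_div_iff_mul_le (by omega)]
  omega

/-- powers with polynomial exponents -/
theorem Q_zpow (S : Subgroup G) {D : ℕ} (hD : 1 ≤ D) {g : G} (hg : g ∈ S) :
    ∀ (m i : ℕ) (a : ℕ → ℤ), PD (D + 1 - i) a → Qp (fil S D) m i (fun n => g ^ a n) := by
  have hval : ∀ (i : ℕ) (a : ℕ → ℤ), PD (D + 1 - i) a → ∀ n, g ^ a n ∈ fil S D i := by
    intro i a ha n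
    by_cases hi : i ≤ D
    · have e : (i - 1) / D = 0 := Nat.div_eq_of_lt (by omega)
      unfold fil
      rw [e, Subgroup.lowerCentralSeries_zero]
      exact S.zpow_mem hg _
    · have e : D + 1 - i = 0 := by omega
      rw [e] at ha
      have h1 : a = 0 := ha
      rw [h1, Pi.zero_apply, zpow_zero]
      exact Subgroup.one_mem _
  intro m
  induction m with
  | zero => exact hval
  | succ m ih =>
    intro i a ha
    refine ⟨hval i a ha, ?_⟩
    have e : dd (fun n => g ^ a n) = fun n => g ^ dl a n := by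
      funext n
      unfold dd dl
      rw [zpow_sub]
    rw [e]
    apply ih
    by_cases hi : i ≤ D
    · have e2 : D + 1 - i = (D + 1 - (i + 1)) + 1 := by omega
      rw [e2] at ha
      exact ha.dl
    · have e3 : D + 1 - i = 0 := by omega
      rw [e3] at ha
      have h1 : a = 0 := ha
      rw [h1, dl_zero]
      exact (PD.zero 0).mono (Nat.zero_le _)

theorem Q_it (Φ : ℕ → Subgroup G) : ∀ (m i : ℕ) (f : ℕ → G), Qp Φ m i f →
    ∀ n, dd^[m] f n ∈ Φ (i + m)
  | 0, _, _, h => h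
  | m + 1, i, f, h => by
    intro n
    rw [Function.iterate_succ_apply]
    have := Q_it Φ m (i + 1) (dd f) h.2 n
    rwa [show i + (m + 1) = i + 1 + m by omega]

/-- products of powers with polynomial exponents -/
theorem Q_prod (S : Subgroup G) {D : ℕ} (hD : 1 ≤ D) (m : ℕ) {d : ℕ} (T : Fin d → G)
    (hT : ∀ i, T i ∈ S) (a : ℕ → Fin d → ℤ) (ha : PD (D + 1) a) :
    Qp (fil S D) m 0 (fun n => (List.ofFn fun i => T i ^ a n i).prod) := by
  induction d with
  | zero =>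
    have e : (fun n => (List.ofFn fun i => T i ^ a n i).prod) = fun n => (1 : G) ^ (0 : ℕ → ℤ) n := by
      funext n
      rw [List.ofFn_zero, List.prod_nil, one_zpow]
    rw [e]
    exact Q_zpow S hD S.one_mem m 0 _ ((PD.zero 0).mono (Nat.zero_le _))
  | succ d ih =>
    have e : (fun n => (List.ofFn fun i => T i ^ a n i).prod) =
        fun n => T 0 ^ (fun n => a n 0) n *
          (List.ofFn fun i : Fin d => T i.succ ^ (fun n (i : Fin d) => a n i.succ) n i).prod := by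
      funext n
      rw [List.ofFn_succ, List.prod_cons]
    rw [e]
    refine (Q_all (fil S D) (fil_anti S D) (fil_comm S hD) m).1 0 _ _ ?_ ?_
    · refine Q_zpow S hD (hT 0) m 0 _ ?_
      exact ha.map (Pi.evalAddMonoidHom (fun _ : Fin (d + 1) => ℤ) 0)
    · refine ih (fun i => T i.succ) (fun i => hT _) (fun n i => a n i.succ) ?_
      exact ha.map (AddMonoidHom.mk' (fun v : Fin (d + 1) → ℤ => fun i : Fin d => v i.succ)
        (fun _ _ => rfl))

end Pool.Agent.Helper26K1.AP
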