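import Pool.Agent.Helper26K1.AP.QFix
import Pool.Agent.Helper26K1.AP.Nil
import Pool.Agent.TH784.AA.Fin

/-!
# Affine actions on compact abelian groups, up to translations
-/

set_option autoImplicit false
set_option linter.unusedSectionVars false

open Polynomial Filter Topology MeasureTheory

noncomputable section

namespace Pool.Agent.Helper26K1.AP

open Pool.Agent.TH784.AA (IsAff IsAct isAff_prod)
open Pool.Agent.W761.Box (prod_zpow_add)

universe u

variable {X : Type u} [CommGroup X] [TopologicalSpace X] [IsTopologicalGroup X] [CompactSpace X]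
  [T2Space X]

/-- products of powers -/
def pw {G : Type*} [Group G] {d : ℕ} (T : Fin d → G) (a : Fin d → ℤ) : G :=
  (List.ofFn fun i => T i ^ a i).prod

/-- the group of affine bijections -/
def AffG (X : Type u) [CommGroup X] [TopologicalSpace X] [IsTopologicalGroup X] [CompactSpace X]
    [T2Space X] : Subgroup (Equiv.Perm X) where
  carrier := {φ | IsAff (φ : X → X)}
  mul_mem' := fun {φ ψ} (h : IsAff (φ : X → X)) (h' : IsAff (ψ : X → X)) => by
    show IsAff (fun x => φ (ψ x))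
    exact IsAff.comp h h'
  one_mem' := IsAff.id
  inv_mem' := fun {_} h => IsAff.symm h

/-- the linear part -/
def linM : AffG X →* Equiv.Perm X where
  toFun φ :=
    { toFun := fun x => φ.1 x * (φ.1 1)⁻¹
      invFun := fun y => φ.1⁻¹ (y * φ.1 1)
      left_inv := fun x => by
        show φ.1⁻¹ (φ.1 x * (φ.1 1)⁻¹ * φ.1 1) = x
        rw [inv_mul_cancel_right]
        exact φ.1.symm_apply_apply x
      right_inv := fun y => by
        show φ.1 (φ.1⁻¹ (y * φ.1 1)) * (φ.1 1)⁻¹ = y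
        have h : φ.1 (φ.1⁻¹ (y * φ.1 1)) = y * φ.1 1 := φ.1.apply_symm_apply _
        rw [h, mul_inv_cancel_right] }
  map_one' := by
    ext x
    show x * 1⁻¹ = x
    rw [inv_one, mul_one]
  map_mul' := fun φ ψ => by
    ext x
    show φ.1 (ψ.1 x) * (φ.1 (ψ.1 1))⁻¹ = φ.1 (ψ.1 x * (ψ.1 1)⁻¹) * (φ.1 1)⁻¹
    obtain ⟨α, c, h⟩ := φ.2
    show (φ.1 : X → X) (ψ.1 x) * ((φ.1 : X → X) (ψ.1 1))⁻¹ =
      (φ.1 : X → X) (ψ.1 x * (ψ.1 1)⁻¹) * ((φ.1 : X → X) 1)⁻¹
    rw [h, h, h, h 1, map_mul, map_inv, map_one α, one_mul, mul_inv_cancel_right, mul_inv,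
      mul_mul_mul_comm, mul_inv_cancel, mul_one]

theorem linM_apply (φ : AffG X) (x : X) : linM φ x = φ.1 x * (φ.1 1)⁻¹ := rfl

variable {d : ℕ} {T : Fin d → Equiv.Perm X}

theorem pw_coe (hT : ∀ i, IsAff (T i : X → X)) (a : Fin d → ℤ) :
    ((pw (fun i => (⟨T i, hT i⟩ : AffG X)) a : AffG X) : Equiv.Perm X) = pw T a := by
  unfold pw
  rw [← Subgroup.coe_subtype, map_list_prod, List.map_ofFn]
  congr 2

theorem pw_map {G H : Type*} [Group G] [Group H] (f : G →* H) (T : Fin d → G) (a : Fin d → ℤ) :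
    f (pw T a) = pw (fun i => f (T i)) a := by
  unfold pw
  rw [map_list_prod, List.map_ofFn]
  congr 2
  funext i
  rw [Function.comp_apply, map_zpow]

theorem pw_zero {G : Type*} [Group G] (T : Fin d → G) : pw T 0 = 1 := by
  unfold pw
  simp

/-- an action by affine maps up to translations, polynomially -/
structure AffAct (Φ : (Fin d → ℤ) → Equiv.Perm X) (Λ : (Fin d → ℤ) → (X →ₜ* X)) : Prop where
  lin : ∀ a x, Φ a x = Λ a x * Φ a 1
  zero : Φ 0 = 1
  add : ∀ a b x, Λ (a + b) x = Λ a (Λ b x)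
  quasi : ∀ f g : ℕ → Fin d → ℤ, (∃ D, PD D f) → (∃ D, PD D g) → ∃ T, PD T (fun n =>
    Additive.ofMul (Φ (f n + g n) 1 * (Φ (g n) (Φ (f n) 1))⁻¹))

/-- iterated differences of translations -/
theorem dd_trans : ∀ (k : ℕ) (f : ℕ → Equiv.Perm X) (t : ℕ → X), (∀ n x, f n x = x * t n) →
    ∀ n x, dd^[k] f n x = x * (dl^[k] (fun n => Additive.ofMul (t n)) n).toMul
  | 0, f, t, h => h
  | k + 1, f, t, h => by
    rw [Function.iterate_succ_apply, Function.iterate_succ_apply]
    have h1 : ∀ n x, dd f n x = x * (t (n + 1) * (t n)⁻¹) := by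
      intro n x
      show f (n + 1) ((f n)⁻¹ x) = _
      have h2 : (f n)⁻¹ x = x * (t n)⁻¹ := by
        rw [Equiv.Perm.inv_eq_iff_eq, h, inv_mul_cancel_right]
      rw [h2, h, mul_assoc, mul_comm (t n)⁻¹]
    have h3 := dd_trans k (dd f) (fun n => t (n + 1) * (t n)⁻¹) h1
    have h4 : dl (fun n => Additive.ofMul (t n)) =
        fun n => Additive.ofMul (t (n + 1) * (t n)⁻¹) := by
      funext n
      show Additive.ofMul (t (n + 1)) - Additive.ofMul (t n) = _
      rw [← ofMul_div, div_eq_mul_inv]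
    rw [h4]
    exact h3

theorem affAct_of (hT : ∀ i, IsAff (T i : X → X))
    (hc : ∀ i j, ∃ ν : X, ∀ x, T i (T j x) = T j (T i x) * ν)
    (hnil : Group.IsNilpotent (Subgroup.closure (Set.range T))) :
    ∃ Λ : (Fin d → ℤ) → (X →ₜ* X), AffAct (pw T) Λ := by
  classical
  set T' : Fin d → AffG X := fun i => ⟨T i, hT i⟩ with hT'
  have haff : ∀ a, IsAff ((pw T a : Equiv.Perm X) : X → X) := fun a => isAff_prod hT a
  choose Λ c hΛ using haff
  have hc1 : ∀ a, c a = pw T a 1 := by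
    intro a
    rw [hΛ, map_one, one_mul]
  have hlin : ∀ a x, pw T a x = Λ a x * pw T a 1 := by
    intro a x
    rw [hΛ, ← hc1]
  -- commuting linear parts
  have hcomm : ∀ i j, Commute (linM (T' i)) (linM (T' j)) := by
    intro i j
    have : linM (T' i * T' j) = linM (T' j * T' i) := by
      ext x
      rw [linM_apply, linM_apply]
      show T i (T j x) * (T i (T j 1))⁻¹ = T j (T i x) * (T j (T i 1))⁻¹
      obtain ⟨ν, hν⟩ := hc i j
      rw [hν, hν, mul_inv, mul_mul_mul_comm, mul_inv_cancel, mul_one]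
    rw [map_mul, map_mul] at this
    exact this
  have hΛ1 : ∀ a x, Λ a x = linM (pw T' a) x := by
    intro a x
    rw [linM_apply, pw_coe hT, hlin, mul_inv_cancel_right]
  have hadd : ∀ a b x, Λ (a + b) x = Λ a (Λ b x) := by
    intro a b x
    rw [hΛ1, hΛ1, hΛ1, pw_map, pw_map, pw_map]
    have := prod_zpow_add (fun i => linM (T' i)) hcomm a b
    show pw (fun i => linM (T' i)) (a + b) x = _
    unfold pw
    rw [this]
    rfl
  refine ⟨Λ, hlin, pw_zero T, hadd, ?_⟩
  intro f g hf hg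
  obtain ⟨D₁, hD₁⟩ := hf
  obtain ⟨D₂, hD₂⟩ := hg
  set D := max D₁ D₂ with hD
  have hfD : PD (D + 1 + 1) f := hD₁.mono (by omega)
  have hgD : PD (D + 1 + 1) g := hD₂.mono (by omega)
  obtain ⟨s, hs⟩ := (Subgroup.isNilpotent_iff_lowerCentralSeries _).1 hnil
  set S : Subgroup (Equiv.Perm X) := Subgroup.closure (Set.range T) with hS
  have hTS : ∀ i, T i ∈ S := fun i => Subgroup.subset_closure ⟨i, rfl⟩
  set k : ℕ := s * (D + 1) + 1 with hk
  have hQ : ∀ m, Qp (fil S (D + 1)) m 0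
      (fun n => pw T (f n + g n) * (pw T (g n) * pw T (f n))⁻¹) := by
    intro m
    obtain ⟨q1, q2, _⟩ := Q_all (fil S (D + 1)) (fil_anti S (D + 1)) (fil_comm S (by omega)) m
    exact q1 0 _ _ (Q_prod S (by omega) m T hTS _ (hfD.add hgD))
      (q2 0 _ (q1 0 _ _ (Q_prod S (by omega) m T hTS _ hgD) (Q_prod S (by omega) m T hTS _ hfD)))
  have hit := Q_it _ k 0 _ (hQ k)
  have hbot : fil S (D + 1) (0 + k) = ⊥ := fil_bot S hs (by omega) (by omega)
  rw [hbot] at hit
  -- translations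
  have htr : ∀ n x, (pw T (f n + g n) * (pw T (g n) * pw T (f n))⁻¹ : Equiv.Perm X) x =
      x * (pw T (f n + g n) 1 * (pw T (g n) (pw T (f n) 1))⁻¹) := by
    intro n x
    obtain ⟨y, rfl⟩ := (pw T (g n) * pw T (f n)).surjective x
    have h0 : (pw T (f n + g n) * (pw T (g n) * pw T (f n))⁻¹ : Equiv.Perm X)
        ((pw T (g n) * pw T (f n)) y) = pw T (f n + g n) y := by
      rw [Equiv.Perm.mul_apply]
      congr 1
      exact (pw T (g n) * pw T (f n)).symm_apply_apply y
    rw [h0, Equiv.Perm.mul_apply, hlin,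
      hlin (g n) (pw T (f n) y), hlin (f n) y, map_mul, hlin (g n) (pw T (f n) 1), add_comm (f n),
      hadd]
    have e : ∀ a b c d e : X, a * b = a * c * d * (b * (c * d)⁻¹) := by
      intro a b c d _
      rw [mul_inv_rev, mul_assoc a c d, mul_mul_mul_comm, mul_comm d⁻¹ c⁻¹, ← mul_inv, 
        mul_inv_cancel, mul_one]
    exact e _ _ _ _ 1
  refine ⟨k, ?_⟩
  funext n
  have h1 := dd_trans k _ _ htr n 1
  have h2 := hit n
  rw [Subgroup.mem_bot] at h2
  rw [h2, Equiv.Perm.one_apply, one_mul] at h1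
  rw [Pi.zero_apply]
  exact h1.symm

end Pool.Agent.Helper26K1.AP
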