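import Mathlib

/-!
# Isolators of subgroups of `ℤ ^ d`; values of integer polynomials on residue classes
-/

set_option autoImplicit false

open Polynomial

noncomputable section

namespace Pool.Agent.Helper26K1.AP

/-- quotients on residue classes -/
theorem exists_quot (P : ℤ[X]) (r q : ℤ) :
    ∃ S : ℤ[X], S.eval 0 = 0 ∧ ∀ x, P.eval (r + q * x) = P.eval r + q * S.eval x := by
  have h1 := sub_dvd_eval_sub (C r + C q * X : ℤ[X]) (C r) (P.map C)
  rw [add_sub_cancel_left] at h1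
  obtain ⟨T, hT⟩ := h1
  refine ⟨X * T, by simp, fun x => ?_⟩
  have h2 := congrArg (Polynomial.eval x) hT
  have e1 : ∀ y : ℤ[X], (eval y (P.map C)) = P.comp y := by
    intro y
    rw [eval_map]
    rfl
  rw [e1, e1, eval_sub, eval_comp, eval_comp] at h2
  simp only [eval_add, eval_mul, eval_C, eval_X] at h2 ⊢
  linear_combination h2

/-- a free quotient modulo the isolator of a subgroup -/
theorem exists_iso {d : ℕ} (A₀ : AddSubgroup (Fin d → ℤ)) :
    ∃ (t : ℕ) (G : Type) (_ : AddCommGroup G) (π : (Fin d → ℤ) →+ G) (σ : G →+ (Fin d → ℤ))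
      (e : G →+ ℤ[X]), 1 ≤ t ∧ Function.Injective e ∧ (∀ g, π (σ g) = g) ∧
      (∀ a, π a = 0 → t • a ∈ A₀) ∧ ∀ (a : Fin d → ℤ) (k : ℕ), 1 ≤ k → k • a ∈ A₀ → π a = 0 := by
  classical
  let A₁ : Submodule ℤ (Fin d → ℤ) := AddSubgroup.toIntSubmodule
    { carrier := {a | ∃ k : ℕ, 1 ≤ k ∧ k • a ∈ A₀}
      zero_mem' := ⟨1, le_rfl, by simpa using A₀.zero_mem⟩
      add_mem' := by
        rintro a b ⟨k, hk, h1⟩ ⟨l, hl, h2⟩
        refine ⟨k * l, Nat.mul_pos hk hl, ?_⟩
        rw [smul_add]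
        refine A₀.add_mem ?_ ?_
        · rw [mul_comm, mul_smul]
          exact A₀.nsmul_mem h1 l
        · rw [mul_smul]
          exact A₀.nsmul_mem h2 k
      neg_mem' := by
        rintro a ⟨k, hk, h1⟩
        refine ⟨k, hk, ?_⟩
        rw [smul_neg]
        exact A₀.neg_mem h1 }
  have hA₁ : ∀ a, a ∈ A₁ ↔ ∃ k : ℕ, 1 ≤ k ∧ k • a ∈ A₀ := fun a => Iff.rfl
  -- the exponent
  obtain ⟨s, hs⟩ := (IsNoetherian.noetherian A₁ : A₁.FG)
  have hsk : ∀ g ∈ s, ∃ k : ℕ, 1 ≤ k ∧ k • g ∈ A₀ := by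
    intro g hg
    rw [← hA₁, ← hs]
    exact Submodule.subset_span hg
  choose! k hk1 hk2 using hsk
  set t : ℕ := ∏ g ∈ s, k g with ht
  have ht1 : 1 ≤ t := Nat.one_le_iff_ne_zero.2 (Finset.prod_ne_zero_iff.2 fun g hg => by
    have := hk1 g hg
    omega)
  have htA : ∀ a ∈ A₁, t • a ∈ A₀ := by
    intro a ha
    rw [← hs] at ha
    induction ha using Submodule.span_induction with
    | mem g hg =>
      have hg' : g ∈ s := hg
      rw [ht, ← Finset.mul_prod_erase s k hg', mul_comm, mul_smul]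
      exact A₀.nsmul_mem (hk2 g hg') _
    | zero =>
      rw [smul_zero]
      exact A₀.zero_mem
    | add x y _ _ hx hy =>
      rw [smul_add]
      exact A₀.add_mem hx hy
    | smul c x _ hx =>
      rw [smul_comm]
      exact A₀.zsmul_mem hx c
  -- the quotient is torsion free
  have htf : Module.IsTorsionFree ℤ ((Fin d → ℤ) ⧸ A₁) := by
    refine ⟨fun r hr x y hxy => ?_⟩
    obtain ⟨a, rfl⟩ := A₁.mkQ_surjective x
    obtain ⟨b, rfl⟩ := A₁.mkQ_surjective y
    have hr0 : r ≠ 0 := by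
      rintro rfl
      exact one_ne_zero (hr.1 (show (0 : ℤ) * 1 = 0 * 0 by simp))
    have h1 : r • (a - b) ∈ A₁ := by
      have h2 : A₁.mkQ (r • (a - b)) = 0 := by
        rw [map_smul, map_sub, smul_sub]
        exact sub_eq_zero.2 hxy
      rwa [Submodule.mkQ_apply, Submodule.Quotient.mk_eq_zero] at h2
    obtain ⟨k, hk, h2⟩ := (hA₁ _).1 h1
    have h3 : a - b ∈ A₁ := by
      refine (hA₁ _).2 ⟨k * r.natAbs, Nat.mul_pos hk (Int.natAbs_pos.2 hr0), ?_⟩
      rw [mul_smul]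
      rcases Int.natAbs_eq r with h | h
      · have e1 : r.natAbs • (a - b) = r • (a - b) := by
          rw [← natCast_zsmul, ← h]
        rw [e1]
        exact h2
      · have e1 : r.natAbs • (a - b) = - (r • (a - b)) := by
          rw [← natCast_zsmul, ← neg_smul]
          congr 1
          omega
        rw [e1, smul_neg]
        exact A₀.neg_mem h2
    have h4 : A₁.mkQ (a - b) = 0 := by
      rw [Submodule.mkQ_apply, Submodule.Quotient.mk_eq_zero]
      exact h3
    rw [map_sub] at h4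
    exact sub_eq_zero.1 h4
  obtain ⟨n, b⟩ := Module.basisOfFiniteTypeTorsionFree' (R := ℤ) (M := (Fin d → ℤ) ⧸ A₁)
  have hfree : Module.Free ℤ ((Fin d → ℤ) ⧸ A₁) := Module.Free.of_basis b
  obtain ⟨σ, hσ⟩ := Module.projective_lifting_property A₁.mkQ LinearMap.id A₁.mkQ_surjective
  let e : ((Fin d → ℤ) ⧸ A₁) →ₗ[ℤ] ℤ[X] := b.constr ℤ (fun i : Fin n => (X : ℤ[X]) ^ (i : ℕ))
  have he : Function.Injective e := by
    rw [injective_iff_map_eq_zero]
    intro x hx
    have h1 : e x = ∑ i, b.equivFun x i • (X : ℤ[X]) ^ (i : ℕ) :=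
      Module.Basis.constr_apply_fintype _ _ _ _
    apply b.equivFun.injective
    funext j
    have h2 := congrArg (fun p : ℤ[X] => p.coeff (j : ℕ)) (h1.symm.trans hx)
    simp only [finsetSum_coeff, coeff_smul, coeff_X_pow, coeff_zero] at h2
    rw [Finset.sum_eq_single j] at h2
    · rw [if_pos rfl, smul_eq_mul, mul_one] at h2
      rw [h2, map_zero]
      rfl
    · intro i _ hij
      rw [if_neg (fun h => hij (Fin.ext h.symm)), smul_zero]
    · intro h
      exact absurd (Finset.mem_univ j) h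
  refine ⟨t, (Fin d → ℤ) ⧸ A₁, inferInstance, A₁.mkQ.toAddMonoidHom, σ.toAddMonoidHom,
    e.toAddMonoidHom, ht1, he, fun g => ?_, fun a ha => ?_, fun a k hk h => ?_⟩
  · exact LinearMap.congr_fun hσ g
  · refine htA a ?_
    have h1 : A₁.mkQ a = 0 := ha
    rwa [Submodule.mkQ_apply, Submodule.Quotient.mk_eq_zero] at h1
  · show A₁.mkQ a = 0
    rw [Submodule.mkQ_apply, Submodule.Quotient.mk_eq_zero]
    exact (hA₁ a).2 ⟨k, hk, h⟩

end Pool.Agent.Helper26K1.AP
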