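import Pool.Agent.Helper26K1.AP.Pet
import Pool.Agent.Helper26K1.AP.Lat
import Pool.Agent.TH784.AA.Irr

/-!
# The dichotomy for polynomial orbit sums in coprimary modules
-/

set_option autoImplicit false

open Polynomial Finset

noncomputable section

namespace Pool.Agent.Helper26K1.AP

open Pool.Agent.TH784.AA (Copr nil_pow)

section more

variable {M : Type*} [AddCommGroup M]

theorem it_mem (K : AddSubgroup M) (e : ℕ) {f : ℕ → M} (h : ∀ n, f n ∈ K) (n : ℕ) :
    dl^[e] f n ∈ K := by
  induction e generalizing f n with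
  | zero => exact h n
  | succ e ih =>
    rw [Function.iterate_succ_apply]
    exact ih (fun n => K.sub_mem (h _) (h _)) n

theorem PD.nsm {e : ℕ} {f : ℕ → M} (hf : PD e f) : PD (e + 1) (fun n => (n : ℤ) • f n) := by
  induction e generalizing f with
  | zero =>
    have h : f = 0 := hf
    rw [h]
    have e1 : (fun n : ℕ => (n : ℤ) • (0 : ℕ → M) n) = fun _ => 0 := by
      funext n
      exact smul_zero _
    rw [e1]
    exact PD.zero _
  | succ e ih =>
    refine PD.of_dl ?_
    have e1 : AP.dl (fun n : ℕ => (n : ℤ) • f n) =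
        fun n : ℕ => (n : ℤ) • AP.dl f n + f (n + 1) := by
      funext n
      simp only [AP.dl]
      push_cast
      rw [add_smul, one_smul, smul_sub]
      abel
    rw [e1]
    exact (ih hf.dl).add (hf.shift 1)

theorem pd_poly (S : ℤ[X]) (x : M) : ∃ D, PD D (fun n : ℕ => S.eval (n : ℤ) • x) := by
  induction S using Polynomial.induction_on with
  | C a =>
    refine ⟨1, ?_⟩
    simp only [eval_C]
    exact PD.const _
  | add p q hp hq =>
    obtain ⟨D, hD⟩ := hp
    obtain ⟨D', hD'⟩ := hq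
    refine ⟨max D D', ?_⟩
    simp only [eval_add, add_smul]
    exact (hD.mono (le_max_left _ _)).add (hD'.mono (le_max_right _ _))
  | monomial n a ih =>
    obtain ⟨D, hD⟩ := ih
    refine ⟨D + 1, ?_⟩
    have h1 := hD.nsm
    refine Eq.trans ?_ h1
    congr 1
    funext k
    simp only [eval_mul, eval_C, eval_pow, eval_X]
    rw [← mul_smul]
    congr 1
    ring

theorem pd_pi {d : ℕ} (S : Fin d → ℤ[X]) :
    ∃ D, PD D (fun n : ℕ => fun i => (S i).eval (n : ℤ)) := by
  classical
  choose D hD using fun i => pd_poly (S i) (Pi.single i (1 : ℤ) : Fin d → ℤ)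
  refine ⟨∑ i, D i, ?_⟩
  have h1 := PD.sum Finset.univ (fun i _ =>
    (hD i).mono (Finset.single_le_sum (f := D) (fun _ _ => Nat.zero_le _) (Finset.mem_univ i)))
  refine Eq.trans ?_ h1
  congr 1
  funext n
  funext i
  rw [Finset.sum_apply, Finset.sum_eq_single i]
  · simp
  · intro j _ hij
    rw [Pi.smul_apply, Pi.single_eq_of_ne hij.symm, smul_zero]
  · intro h
    exact absurd (Finset.mem_univ i) h

end more

/-! ### Unipotent actions -/

section unip

variable {R M : Type*} [CommRing R] [AddCommGroup M] [Module R M]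

/-- the elements killed by `I ^ i` -/
def kil (I : Ideal R) (i : ℕ) : Submodule R M where
  carrier := {x | ∀ r ∈ I ^ i, r • x = 0}
  zero_mem' := fun r _ => smul_zero r
  add_mem' := fun {x y} hx hy r hr => by rw [smul_add, hx r hr, hy r hr, add_zero]
  smul_mem' := fun c x hx r hr => by rw [smul_comm, hx r hr, smul_zero]

theorem kil_smul {I : Ideal R} {i : ℕ} {x : M} (hx : x ∈ (kil I (i + 1) : Submodule R M)) {r : R}
    (hr : r ∈ I) : r • x ∈ (kil I i : Submodule R M) := by
  intro s hs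
  rw [← mul_smul]
  apply hx
  rw [pow_succ]
  exact Ideal.mul_mem_mul hs hr

variable {A : Type*} [AddCommGroup A] (ψ : Multiplicative A →* R)

theorem psi_add (a b : A) : ψ (Multiplicative.ofAdd (a + b)) =
    ψ (Multiplicative.ofAdd a) * ψ (Multiplicative.ofAdd b) := by
  rw [ofAdd_add, map_mul]

theorem psi_zero : ψ (Multiplicative.ofAdd (0 : A)) = 1 := by
  rw [ofAdd_zero, map_one]

/-- the elements which act trivially modulo `I` -/
def unS (I : Ideal R) : AddSubgroup A where
  carrier := {a | ψ (Multiplicative.ofAdd a) - 1 ∈ I}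
  zero_mem' := by
    show ψ (Multiplicative.ofAdd (0 : A)) - 1 ∈ I
    rw [psi_zero, sub_self]
    exact I.zero_mem
  add_mem' := fun {a b} ha hb => by
    show ψ (Multiplicative.ofAdd (a + b)) - 1 ∈ I
    rw [psi_add]
    have e : ψ (Multiplicative.ofAdd a) * ψ (Multiplicative.ofAdd b) - 1 =
        ψ (Multiplicative.ofAdd a) * (ψ (Multiplicative.ofAdd b) - 1) +
          (ψ (Multiplicative.ofAdd a) - 1) := by ring
    rw [e]
    exact I.add_mem (I.mul_mem_left _ hb) ha
  neg_mem' := fun {a} ha => by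
    show ψ (Multiplicative.ofAdd (-a)) - 1 ∈ I
    have h1 := psi_add ψ (-a) a
    rw [neg_add_cancel, psi_zero] at h1
    have e : ψ (Multiplicative.ofAdd (-a)) - 1 =
        -(ψ (Multiplicative.ofAdd (-a)) * (ψ (Multiplicative.ofAdd a) - 1)) := by
      rw [mul_sub, ← h1]
      ring
    rw [e]
    exact I.neg_mem (I.mul_mem_left _ ha)

theorem mem_unS {I : Ideal R} {a : A} : a ∈ unS ψ I ↔ ψ (Multiplicative.ofAdd a) - 1 ∈ I := Iff.rfl

theorem unip (I : Ideal R) (D i e : ℕ) (κ : ℕ → A) (hκ : ∀ n, κ n ∈ unS ψ I) (hD : PD D κ)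
    (V : ℕ → M) (hV : ∀ n, V n ∈ (kil I i : Submodule R M)) (hp : ∃ e₀, PD e₀ V)
    (he : ∀ n, dl^[e] V n ∈ (kil I (i - 1) : Submodule R M)) :
    ∃ e', PD e' (fun n => ψ (Multiplicative.ofAdd (κ n)) • V n) := by
  induction D generalizing i e κ V with
  | zero =>
    have h : κ = 0 := hD
    obtain ⟨e₀, h0⟩ := hp
    refine ⟨e₀, ?_⟩
    refine Eq.trans ?_ h0
    congr 1
    funext n
    rw [h]
    show ψ (Multiplicative.ofAdd (0 : A)) • V n = V n
    rw [psi_zero, one_smul]
  | succ D ihD =>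
    induction i generalizing e V with
    | zero =>
      refine ⟨0, ?_⟩
      funext n
      have h1 : (1 : R) • V n = 0 := hV n 1 (by
        rw [pow_zero, Ideal.one_eq_top]
        trivial)
      rw [one_smul] at h1
      show ψ (Multiplicative.ofAdd (κ n)) • V n = 0
      rw [h1, smul_zero]
    | succ i ihi =>
      induction e generalizing V with
      | zero =>
        obtain ⟨e₀, h0⟩ := hp
        refine ihi e₀ V (fun n => he n) ⟨e₀, h0⟩ fun n => ?_
        rw [h0]
        exact Submodule.zero_mem _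
      | succ e ihe =>
        obtain ⟨e₀, h0⟩ := hp
        have hdκ : ∀ n, dl κ n ∈ unS ψ I := fun n => (unS ψ I).sub_mem (hκ _) (hκ _)
        have h1 := ihD (i + 1) e₀ (dl κ) hdκ hD.dl (fun n => V (n + 1)) (fun n => hV _)
          ⟨e₀, h0.shift 1⟩ (fun n => by
            have := h0.shift 1
            rw [this]
            exact Submodule.zero_mem _)
        obtain ⟨e₁, h1⟩ := h1
        have h2 := ihe (fun n => ψ (Multiplicative.ofAdd (dl κ n)) • V (n + 1) - V n)
          (fun n => Submodule.sub_mem _ (Submodule.smul_mem _ _ (hV _)) (hV _))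
          ⟨max e₁ e₀, (h1.mono (le_max_left _ _)).sub (h0.mono (le_max_right _ _))⟩
          (fun n => by
            have e1 : (fun n => ψ (Multiplicative.ofAdd (dl κ n)) • V (n + 1) - V n) =
                (fun n => (ψ (Multiplicative.ofAdd (dl κ n)) - 1) • V (n + 1)) + dl V := by
              funext n
              simp only [Pi.add_apply, dl, sub_smul, one_smul]
              abel
            rw [e1, it_add]
            refine Submodule.add_mem _ ?_ ?_
            · exact it_mem (kil I (i + 1 - 1) : Submodule R M).toAddSubgroup e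
                (fun n => kil_smul (hV _) (hdκ n)) n
            · rw [← Function.iterate_succ_apply]
              exact he n)
        obtain ⟨e₂, h2⟩ := h2
        refine ⟨e₂ + 1, PD.of_dl ?_⟩
        refine Eq.trans ?_ h2
        congr 1
        funext n
        simp only [dl]
        rw [smul_sub, ← mul_smul, ← psi_add]
        congr 3
        congr 1
        abel

end unip

/-! ### The dichotomy -/

section dich

variable {R M : Type*} [CommRing R] [IsNoetherianRing R] [AddCommGroup M] [Module R M] {d : ℕ}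
  (ψ : Multiplicative (Fin d → ℤ) →* R) {J : Type*} [Fintype J]

/-- the exponents -/
def ex (P : Fin d → ℤ[X]) (n : ℕ) : Fin d → ℤ := fun i => (P i).eval (n : ℤ)

/-- sums over polynomial orbits -/
def orb (P : J → Fin d → ℤ[X]) (w : J → M) (n : ℕ) : M :=
  ∑ j, ψ (Multiplicative.ofAdd (ex (P j) n)) • w j

/-- the coefficients are polynomial sequences -/
theorem coeff_pd (hC : Copr R M) :
    ∃ u : ℕ, 1 ≤ u ∧ ∀ t : ℕ, ∀ κ : ℕ → (Fin d → ℤ),
      (∀ n, t • κ n ∈ unS ψ (Module.annihilator R M).radical) → (∃ D, PD D κ) → ∀ x : M,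
      ∃ E, ((∀ h : ℕ, 1 ≤ h → ∀ x : M, h • x = 0 → x = 0) ∨ E = 0) ∧
        PD (E + 1) (fun n => ψ (Multiplicative.ofAdd ((u * t) • κ n)) • x) := by
  set I := Module.annihilator R M with hI
  obtain ⟨s, hs⟩ := I.exists_radical_pow_le_of_fg I.radical.fg_of_isNoetherianRing
  by_cases hch : ∃ H : ℕ, 1 ≤ H ∧ (H : R) ∈ I.radical
  · obtain ⟨H, hH1, k, hk⟩ := hch
    have hH' : ((H ^ k : ℕ) : R) ∈ I := by
      rw [Nat.cast_pow]
      exact hk
    refine ⟨(H ^ k) ^ s, Nat.one_le_iff_ne_zero.2 (by positivity), ?_⟩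
    intro t κ hκ _ x
    refine ⟨0, Or.inr rfl, ?_⟩
    have key : ∀ n, ψ (Multiplicative.ofAdd (((H ^ k) ^ s * t) • κ n)) • x = x := by
      intro n
      obtain ⟨c, hc⟩ := nil_pow hH' (ψ (Multiplicative.ofAdd (t • κ n))) 1 s
      rw [one_pow] at hc
      have h1 : c * (ψ (Multiplicative.ofAdd (t • κ n)) - 1) ^ (s + 1) ∈ I := by
        refine I.mul_mem_left _ (hs ?_)
        exact Ideal.pow_le_pow_right (Nat.le_succ s) (Ideal.pow_mem_pow (hκ n) _)
      have h2 := I.add_mem hc h1
      rw [sub_add_cancel] at h2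
      have h3 : ψ (Multiplicative.ofAdd (((H ^ k) ^ s * t) • κ n)) =
          ψ (Multiplicative.ofAdd (t • κ n)) ^ ((H ^ k) ^ s) := by
        rw [mul_smul, ofAdd_nsmul, map_pow]
      rw [h3]
      have h4 := Module.mem_annihilator.1 h2 x
      rw [sub_smul, one_smul] at h4
      exact sub_eq_zero.1 h4
    simp only [key]
    exact PD.const x
  · push Not at hch
    refine ⟨1, le_rfl, ?_⟩
    intro t κ hκ hD x
    obtain ⟨D, hD⟩ := hD
    have htf : ∀ h : ℕ, 1 ≤ h → ∀ x : M, h • x = 0 → x = 0 := by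
      intro h hh x hx
      refine (hC.dich (h : R)).resolve_left (hch h hh) x ?_
      rw [Nat.cast_smul_eq_nsmul]
      exact hx
    have h1 := unip ψ I.radical D s 1 (fun n => t • κ n) hκ (by
        have := hD.map (AddMonoidHom.mk' (fun a : Fin d → ℤ => t • a) (fun a b => smul_add t a b))
        exact this) (fun _ => x) (fun n r hr => Module.mem_annihilator.1 (hs hr) x)
      ⟨1, PD.const x⟩ (fun n => by
        have := PD.const x
        rw [this]
        exact Submodule.zero_mem _)
    obtain ⟨e', he'⟩ := h1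
    refine ⟨e', Or.inl htf, ?_⟩
    simp only [one_mul]
    exact he'.succ

/-- **The dichotomy.** -/
theorem cop_dich (hC : Copr R M) (P : J → Fin d → ℤ[X]) (w : J → M) :
    ∃ q : ℕ, 1 ≤ q ∧ ∀ r : ℕ, (∀ n, orb ψ P w (r + q * n) = orb ψ P w r) ∨
      ∃ C δ : ℝ, 0 ≤ C ∧ 0 < δ ∧ δ ≤ 1 ∧ ∀ c : M, ∀ N : ℕ, 1 ≤ N →
        (zc (fun n => orb ψ P w (r + q * n) - c) N : ℝ) ≤ C * (N : ℝ) ^ (1 - δ) := by
  classical
  set I := Module.annihilator R M with hI
  obtain ⟨t, G, _, π, σ, e, ht, he, hσ, hπ1, hπ2⟩ := exists_iso (unS ψ I.radical)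
  obtain ⟨u, hu, hcoef⟩ := coeff_pd ψ hC
  set q := u * t with hq
  have hq1 : 1 ≤ q := Nat.mul_pos hu ht
  refine ⟨q, hq1, fun r => ?_⟩
  -- the quotients of the polynomials
  choose S hS0 hS using fun j i => exists_quot (P j i) r q
  set s : J → ℕ → (Fin d → ℤ) := fun j n => ex (S j) n with hs
  have hex : ∀ j n, ex (P j) (r + q * n) = ex (P j) r + q • s j n := by
    intro j n
    funext i
    show (P j i).eval ((r + q * n : ℕ) : ℤ) = (P j i).eval (r : ℤ) + (q • s j n) i
    have h1 : (q • s j n) i = (q : ℤ) * (S j i).eval (n : ℤ) := by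
      rw [Pi.smul_apply, nsmul_eq_mul]
      rfl
    rw [h1, ← hS]
    push_cast
    rfl
  set w' : J → M := fun j => ψ (Multiplicative.ofAdd (ex (P j) r)) • w j with hw'
  set κ : J → ℕ → (Fin d → ℤ) := fun j n => s j n - σ (π (s j n)) with hκ
  have hκπ : ∀ j n, π (κ j n) = 0 := by
    intro j n
    rw [hκ]
    simp only
    rw [map_sub, hσ, sub_self]
  have hκD : ∀ j, ∃ D, PD D (κ j) := by
    intro j
    obtain ⟨D, hD⟩ := pd_pi (S j)
    refine ⟨D, ?_⟩
    have h1 := hD.sub (hD.map (σ.comp π))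
    exact h1
  choose E₀ hE₀ hV using fun j => hcoef t (κ j) (fun n => hπ1 _ (hκπ j n)) (hκD j) (w' j)
  set Vj : J → ℕ → M := fun j n => ψ (Multiplicative.ofAdd (q • κ j n)) • w' j with hVj
  set E := ∑ j, E₀ j with hE
  have hchar : (∀ h : ℕ, 1 ≤ h → ∀ x : M, h • x = 0 → x = 0) ∨ E = 0 := by
    by_cases htf : ∀ h : ℕ, 1 ≤ h → ∀ x : M, h • x = 0 → x = 0
    · exact Or.inl htf
    · right
      rw [hE]
      exact Finset.sum_eq_zero fun j _ => (hE₀ j).resolve_left htf
  have hVpd : ∀ j, PD (E + 1) (Vj j) := by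
    intro j
    refine (hV j).mono ?_
    have := Finset.single_le_sum (f := E₀) (fun _ _ => Nat.zero_le _) (Finset.mem_univ j)
    omega
  -- the action of the free quotient
  let Ψ : ℤ[X] → M →+ M := fun b =>
    AddMonoidHom.mk' (fun x => ψ (Multiplicative.ofAdd (q • σ (Function.invFun e b))) • x)
      (fun x y => smul_add _ x y)
  have hΨ : ∀ (g : G) (x : M), Ψ (e g) x = ψ (Multiplicative.ofAdd (q • σ g)) • x := by
    intro g x
    show ψ (Multiplicative.ofAdd (q • σ (Function.invFun e (e g)))) • x = _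
    rw [Function.leftInverse_invFun he g]
  have hΨ0 : ∀ x : M, Ψ 0 x = x := by
    intro x
    rw [← map_zero e, hΨ, map_zero, smul_zero, psi_zero, one_smul]
  have hact : ActOn e.range Ψ := by
    refine ⟨?_, hΨ0⟩
    rintro _ ⟨g, rfl⟩ _ ⟨h, rfl⟩ x
    rw [← map_add, hΨ, hΨ, hΨ, map_add, smul_add, psi_add, mul_smul]
  have hinj : ∀ a ∈ e.range, a ≠ 0 → ∀ x, Ψ a x = x → x = 0 := by
    rintro _ ⟨g, rfl⟩ hg x hx
    rw [hΨ] at hx
    have hg0 : g ≠ 0 := by
      rintro rfl
      exact hg (map_zero e)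
    rcases hC.dich (ψ (Multiplicative.ofAdd (q • σ g)) - 1) with h1 | h1
    · exfalso
      apply hg0
      rw [← hσ g]
      exact hπ2 _ q hq1 h1
    · refine h1 x ?_
      rw [sub_smul, one_smul, hx, sub_self]
  -- the polynomials
  let Q : J → ℤ[X][X] := fun j =>
    ∑ i, C (e (π (Pi.single i 1))) * ((S j i).map (Int.castRingHom ℤ[X]))
  have hQ : ∀ j (n : ℕ), (Q j).eval (n : ℤ[X]) = e (π (s j n)) := by
    intro j n
    have h1 : s j n = ∑ i, (S j i).eval (n : ℤ) • (Pi.single i (1 : ℤ) : Fin d → ℤ) := by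
      funext k
      rw [Finset.sum_apply, Finset.sum_eq_single k]
      · simp [hs, ex]
      · intro i _ hik
        rw [Pi.smul_apply, Pi.single_eq_of_ne hik.symm, smul_zero]
      · intro h
        exact absurd (Finset.mem_univ k) h
    rw [h1, map_sum, map_sum, eval_finsetSum]
    refine Finset.sum_congr rfl fun i _ => ?_
    rw [eval_mul, eval_C, map_zsmul, map_zsmul, zsmul_eq_mul, mul_comm]
    congr 1
    have h2 : (n : ℤ[X]) = (Int.castRingHom ℤ[X]) (n : ℤ) := by simp
    rw [h2, eval_map, eval₂_hom]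
    rfl
  have hQ0 : ∀ j, (Q j).eval 0 = 0 := by
    intro j
    have h1 := hQ j 0
    rw [Nat.cast_zero] at h1
    rw [h1]
    have h2 : s j 0 = 0 := by
      funext i
      simp [hs, ex, hS0]
    rw [h2, map_zero, map_zero]
  -- the families
  set S₀ : Finset ℤ[X][X] := insert 0 (Finset.univ.image Q) with hS₀
  let V : ℤ[X][X] → ℕ → M := fun p n => ∑ j ∈ Finset.univ.filter (fun j => Q j = p), Vj j n
  let Vc : M → ℤ[X][X] → ℕ → M := fun c p n => V p n - if p = 0 then c else 0
  have hVcne : ∀ c p, p ≠ 0 → Vc c p = V p := by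
    intro c p hp
    funext n
    show V p n - (if p = 0 then c else 0) = V p n
    rw [if_neg hp, sub_zero]
  have hV0 : ∀ c, Vc c 0 = fun n => V 0 n - c := by
    intro c
    funext n
    show V 0 n - (if (0 : ℤ[X][X]) = 0 then c else 0) = V 0 n - c
    rw [if_pos rfl]
  have hterm : ∀ j (n : ℕ), Ψ ((Q j).eval (n : ℤ[X])) (Vj j n) =
      ψ (Multiplicative.ofAdd (ex (P j) (r + q * n))) • w j := by
    intro j n
    rw [hQ, hΨ, hVj]
    simp only
    rw [← mul_smul, ← psi_add, ← smul_add, hκ]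
    simp only
    rw [add_sub_cancel, hw']
    simp only
    rw [← mul_smul, ← psi_add, hex, add_comm]
  have hval : ∀ c n, val Ψ S₀ (Vc c) n = orb ψ P w (r + q * n) - c := by
    intro c n
    have h1 : val Ψ S₀ (Vc c) n = ∑ p ∈ S₀, Ψ (p.eval (n : ℤ[X])) (V p n) -
        ∑ p ∈ S₀, (if p = 0 then c else 0) := by
      unfold val
      rw [← Finset.sum_sub_distrib]
      refine Finset.sum_congr rfl fun p _ => ?_
      show Ψ (p.eval (n : ℤ[X])) (V p n - if p = 0 then c else 0) = _
      rw [map_sub]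
      congr 1
      split_ifs with h
      · rw [h, eval_zero, hΨ0]
      · exact map_zero _
    rw [h1, Finset.sum_ite_eq' S₀ (0 : ℤ[X][X]) (fun _ => c), if_pos (Finset.mem_insert_self _ _)]
    congr 1
    unfold orb
    have h2 : ∑ p ∈ S₀, Ψ (p.eval (n : ℤ[X])) (V p n) =
        ∑ p ∈ S₀, ∑ j ∈ Finset.univ.filter (fun j => Q j = p),
          Ψ ((Q j).eval (n : ℤ[X])) (Vj j n) := by
      refine Finset.sum_congr rfl fun p _ => ?_
      rw [map_sum]
      refine Finset.sum_congr rfl fun j hj => ?_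
      rw [(Finset.mem_filter.1 hj).2]
    rw [h2, Finset.sum_fiberwise_of_maps_to (g := Q) (fun j _ =>
      Finset.mem_insert_of_mem (Finset.mem_image_of_mem _ (Finset.mem_univ j)))]
    exact Finset.sum_congr rfl fun j _ => hterm j n
  have hVp : ∀ p, PD (E + 1) (V p) := fun p => PD.sum _ fun j _ => hVpd j
  have hVcp : ∀ c p, PD (E + 1) (Vc c p) := by
    intro c p
    refine (hVp p).sub ?_
    exact (PD.const _).mono (by omega)
  set D := S₀.sup natDegree with hD
  have hadm : Adm e.range D S₀ := by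
    refine ⟨?_, ?_, ?_⟩
    · intro p hp
      rw [hS₀, Finset.mem_insert, Finset.mem_image] at hp
      rcases hp with rfl | ⟨j, _, rfl⟩
      · exact eval_zero
      · exact hQ0 j
    · intro p hp n
      rw [hS₀, Finset.mem_insert, Finset.mem_image] at hp
      rcases hp with rfl | ⟨j, _, rfl⟩
      · rw [eval_zero]
        exact e.range.zero_mem
      · rw [hQ]
        exact ⟨_, rfl⟩
    · intro p hp
      exact Finset.le_sup (f := natDegree) hp
  obtain ⟨C, δ, hC0, hδ0, hδ1, hB⟩ := few_zeros hact hinj D E hchar (fun _ => S₀.card) (E + 1)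
    S₀.card
  -- few values as soon as no coefficient family vanishes
  have hfew : (∀ c, ∃ p ∈ S₀, Vc c p ≠ 0) → ∀ c : M, ∀ N : ℕ, 1 ≤ N →
      (zc (fun n => orb ψ P w (r + q * n) - c) N : ℝ) ≤ C * (N : ℝ) ^ (1 - δ) := by
    intro hne c N hN
    have hsub : S₀.filter (fun p => Vc c p ≠ 0) ⊆ S₀ := Finset.filter_subset _ _
    have hG : Good e.range D S₀.card E (E + 1) (fun _ => S₀.card)
        (S₀.filter (fun p => Vc c p ≠ 0)) (Vc c) := by
      refine ⟨hadm.mono hsub, ?_, Finset.card_le_card hsub, ?_, fun p _ => hVcp c p, ?_, fun _ =>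
        hVcp c 0⟩
      · obtain ⟨p, hp, hp0⟩ := hne c
        exact ⟨p, Finset.mem_filter.2 ⟨hp, hp0⟩⟩
      · intro i
        exact (@Nk_le_card ℤ[X] _ (Classical.decEq _) _ _).trans (Finset.card_le_card hsub)
      · intro p hp
        exact (Finset.mem_filter.1 hp).2
    have h1 := hB _ _ hG N hN
    have e1 : (fun n => orb ψ P w (r + q * n) - c) =
        val Ψ (S₀.filter (fun p => Vc c p ≠ 0)) (Vc c) := by
      funext n
      rw [val_filter, hval]
    rw [e1]
    exact h1
  by_cases hex2 : ∃ p ∈ S₀, p ≠ 0 ∧ V p ≠ 0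
  · obtain ⟨p, hp, hp0, hVne⟩ := hex2
    right
    refine ⟨C, δ, hC0, hδ0, hδ1, hfew fun c => ⟨p, hp, ?_⟩⟩
    rw [hVcne c p hp0]
    exact hVne
  · push Not at hex2
    have horb : ∀ n, orb ψ P w (r + q * n) = V 0 n := by
      intro n
      have h1 := hval 0 n
      rw [sub_zero] at h1
      rw [← h1]
      unfold val
      rw [Finset.sum_eq_single_of_mem (0 : ℤ[X][X]) (Finset.mem_insert_self _ _)]
      · rw [eval_zero, hΨ0, hV0]
        exact sub_zero _
      · intro p hp hp0
        rw [hVcne 0 p hp0, hex2 p hp hp0]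
        exact map_zero _
    by_cases hdl : dl (V 0) = 0
    · left
      intro n
      have h1 := horb 0
      rw [mul_zero, add_zero] at h1
      rw [horb, h1, const_of_dl hdl n]
    · right
      refine ⟨C, δ, hC0, hδ0, hδ1, hfew fun c => ⟨0, Finset.mem_insert_self _ _, ?_⟩⟩
      rw [hV0]
      intro h1
      apply hdl
      funext n
      have h2 := congrFun h1 n
      have h3 := congrFun h1 (n + 1)
      simp only [Pi.zero_apply] at h2 h3
      show V 0 (n + 1) - V 0 n = 0
      rw [sub_eq_zero.1 h2, sub_eq_zero.1 h3, sub_self]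

end dich

end Pool.Agent.Helper26K1.AP
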