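import Mathlib

/-!
# Differences of sequences with values in an abelian group; counting zeros
-/

set_option autoImplicit false

open Finset

noncomputable section

namespace Pool.Agent.Helper26K1.AP

section dif

variable {M : Type*} [AddCommGroup M]

/-- the difference of a sequence -/
def dl (f : ℕ → M) : ℕ → M := fun n => f (n + 1) - f n

/-- `f` is a polynomial sequence of degree less than `e` -/
def PD (e : ℕ) (f : ℕ → M) : Prop := dl^[e] f = 0

theorem dl_zero : dl (0 : ℕ → M) = 0 := by
  funext n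
  simp [dl]

theorem it_zero (e : ℕ) : dl^[e] (0 : ℕ → M) = 0 := by
  induction e with
  | zero => rfl
  | succ e ih => rw [Function.iterate_succ_apply, dl_zero, ih]

theorem dl_add (f g : ℕ → M) : dl (f + g) = dl f + dl g := by
  funext n
  simp only [dl, Pi.add_apply]
  abel

theorem it_add (e : ℕ) (f g : ℕ → M) : dl^[e] (f + g) = dl^[e] f + dl^[e] g := by
  induction e generalizing f g with
  | zero => rfl
  | succ e ih => rw [Function.iterate_succ_apply, Function.iterate_succ_apply,
      Function.iterate_succ_apply, dl_add, ih]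

theorem dl_map {N : Type*} [AddCommGroup N] (φ : M →+ N) (f : ℕ → M) :
    dl (fun n => φ (f n)) = fun n => φ (dl f n) := by
  funext n
  simp only [dl, map_sub]

theorem it_map {N : Type*} [AddCommGroup N] (φ : M →+ N) (e : ℕ) (f : ℕ → M) :
    dl^[e] (fun n => φ (f n)) = fun n => φ (dl^[e] f n) := by
  induction e generalizing f with
  | zero => rfl
  | succ e ih => rw [Function.iterate_succ_apply, Function.iterate_succ_apply, dl_map, ih]

theorem it_shift (h e : ℕ) (f : ℕ → M) :
    dl^[e] (fun n => f (n + h)) = fun n => dl^[e] f (n + h) := by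
  induction e generalizing f with
  | zero => rfl
  | succ e ih =>
    rw [Function.iterate_succ_apply, Function.iterate_succ_apply, ← ih (dl f)]
    congr 1
    funext n
    simp only [dl]
    rw [show n + 1 + h = n + h + 1 by ring]

theorem it_neg (e : ℕ) (f : ℕ → M) : dl^[e] (fun n => - f n) = fun n => - dl^[e] f n := by
  have := it_map (AddMonoidHom.mk' (fun x : M => -x) (fun a b => by abel)) e f
  exact this

theorem PD.zero (e : ℕ) : PD e (fun _ : ℕ => (0 : M)) := it_zero e

theorem PD.succ {e : ℕ} {f : ℕ → M} (h : PD e f) : PD (e + 1) f := by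
  unfold PD at *
  rw [Function.iterate_succ_apply', h, dl_zero]

theorem PD.mono {e e' : ℕ} (hee : e ≤ e') {f : ℕ → M} (h : PD e f) : PD e' f := by
  induction hee with
  | refl => exact h
  | step _ ih => exact ih.succ

theorem PD.add {e : ℕ} {f g : ℕ → M} (hf : PD e f) (hg : PD e g) :
    PD e (fun n => f n + g n) := by
  have := it_add e f g
  unfold PD at *
  have e1 : (fun n => f n + g n) = f + g := rfl
  rw [e1, this, hf, hg, add_zero]

theorem PD.map {N : Type*} [AddCommGroup N] (φ : M →+ N) {e : ℕ} {f : ℕ → M} (hf : PD e f) :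
    PD e (fun n => φ (f n)) := by
  unfold PD at *
  rw [it_map, hf]
  funext n
  exact map_zero φ

theorem PD.neg {e : ℕ} {f : ℕ → M} (hf : PD e f) : PD e (fun n => - f n) := by
  unfold PD at *
  rw [it_neg, hf]
  funext n
  exact neg_zero

theorem PD.sub {e : ℕ} {f g : ℕ → M} (hf : PD e f) (hg : PD e g) :
    PD e (fun n => f n - g n) := by
  have := hf.add hg.neg
  refine Eq.trans ?_ this
  congr 1
  funext n
  exact sub_eq_add_neg _ _

theorem PD.sum {ι : Type*} {e : ℕ} (s : Finset ι) {f : ι → ℕ → M} (h : ∀ i ∈ s, PD e (f i)) :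
    PD e (fun n => ∑ i ∈ s, f i n) := by
  classical
  induction s using Finset.induction_on with
  | empty => simpa using PD.zero e
  | insert i s hi ih =>
    simp only [Finset.sum_insert hi]
    exact (h i (Finset.mem_insert_self _ _)).add (ih fun j hj => h j (Finset.mem_insert_of_mem hj))

theorem PD.shift {e : ℕ} {f : ℕ → M} (hf : PD e f) (h : ℕ) : PD e (fun n => f (n + h)) := by
  unfold PD at *
  rw [it_shift, hf]
  rfl

theorem PD.const (v : M) : PD 1 (fun _ : ℕ => v) := by
  unfold PD
  funext n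
  simp [dl]

theorem const_of_dl {f : ℕ → M} (h : dl f = 0) (n : ℕ) : f n = f 0 := by
  induction n with
  | zero => rfl
  | succ n ih =>
    have := congrFun h n
    simp only [dl, Pi.zero_apply] at this
    rw [← ih]
    exact sub_eq_zero.1 this

theorem PD.diff {e : ℕ} {f : ℕ → M} (hf : PD (e + 1) f) (h : ℕ) :
    PD e (fun n => f (n + h) - f n) := by
  have h1 : dl (dl^[e] f) = 0 := by
    rw [← Function.iterate_succ_apply' dl e f]
    exact hf
  unfold PD
  have e1 : (fun n => f (n + h) - f n) = (fun n => f (n + h)) + (fun n => - f n) := by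
    funext n
    exact sub_eq_add_neg _ _
  rw [e1, it_add, it_shift, it_neg]
  funext n
  show dl^[e] f (n + h) + - dl^[e] f n = 0
  rw [const_of_dl h1 (n + h), const_of_dl h1 n, add_neg_cancel]

theorem PD.dl {e : ℕ} {f : ℕ → M} (hf : PD (e + 1) f) : PD e (dl f) := hf.diff 1

theorem PD.of_dl {e : ℕ} {f : ℕ → M} (hf : PD e (AP.dl f)) : PD (e + 1) f := by
  unfold PD at *
  rwa [Function.iterate_succ_apply]

/-- the leading value -/
theorem exists_top {E : ℕ} {f : ℕ → M} (hf : PD E f) (h0 : f ≠ 0) :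
    ∃ (k : ℕ) (v : M), v ≠ 0 ∧ ∀ n, dl^[k] f n = v := by
  classical
  have hex : ∃ k, dl^[k] f = 0 := ⟨E, hf⟩
  have hk := Nat.find_spec hex
  have hpos : Nat.find hex ≠ 0 := by
    intro h1
    rw [h1] at hk
    exact h0 hk
  obtain ⟨k, hk'⟩ := Nat.exists_eq_succ_of_ne_zero hpos
  have hlt : dl^[k] f ≠ 0 := Nat.find_min hex (by omega)
  rw [hk'] at hk
  have h1 : dl (dl^[k] f) = 0 := by
    rw [← Function.iterate_succ_apply' dl k f]
    exact hk
  refine ⟨k, dl^[k] f 0, ?_, const_of_dl h1⟩
  intro h2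
  apply hlt
  funext n
  rw [const_of_dl h1 n, h2]
  rfl

theorem ne_of_inj {E : ℕ} {f : ℕ → M} (hf : PD E f) (h0 : f ≠ 0) (φ : M →+ M)
    (hφ : ∀ x, φ x = x → x = 0) (h : ℕ) : (fun n => φ (f (n + h)) - f n) ≠ 0 := by
  obtain ⟨k, v, hv, hk⟩ := exists_top hf h0
  intro h1
  apply hv
  apply hφ
  have h2 : dl^[k] (fun n => φ (f (n + h)) - f n) = 0 := by
    rw [h1]
    exact it_zero k
  have e1 : (fun n => φ (f (n + h)) - f n) = (fun n => φ (f (n + h))) + (fun n => - f n) := by
    funext n
    exact sub_eq_add_neg _ _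
  rw [e1, it_add, it_map φ k (fun n => f (n + h)), it_shift, it_neg] at h2
  have h3 := congrFun h2 0
  simp only [Pi.add_apply, Pi.zero_apply, hk] at h3
  exact sub_eq_zero.1 (by rw [sub_eq_add_neg]; exact h3)

theorem ne_of_tf {E : ℕ} {f : ℕ → M} (hf : PD E f) (h0 : dl f ≠ 0)
    (ht : ∀ h : ℕ, 1 ≤ h → ∀ x : M, h • x = 0 → x = 0) {h : ℕ} (hh : 1 ≤ h) :
    (fun n => f (n + h) - f n) ≠ 0 := by
  obtain ⟨k, v, hv, hk⟩ := exists_top (f := dl f) (E := E) (by
    have := hf.succ
    exact this.dl) h0
  intro h1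
  apply hv
  apply ht h hh
  have h2 : dl^[k] (fun n => f (n + h) - f n) = 0 := by
    rw [h1]
    exact it_zero k
  have e1 : (fun n => f (n + h) - f n) = (fun n => f (n + h)) + (fun n => - f n) := by
    funext n
    exact sub_eq_add_neg _ _
  rw [e1, it_add, it_shift, it_neg] at h2
  have h3 := congrFun h2 0
  simp only [Pi.add_apply, Pi.zero_apply, zero_add] at h3
  have h4 : ∀ m : ℕ, dl^[k] f m = dl^[k] f 0 + m • v := by
    intro m
    induction m with
    | zero => rw [zero_smul, add_zero]
    | succ m ih =>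
      have h5 := hk m
      rw [← Function.iterate_succ_apply, Function.iterate_succ_apply'] at h5
      have h6 : dl^[k] f (m + 1) - dl^[k] f m = v := h5
      rw [succ_nsmul, ← add_assoc, ← ih, ← h6]
      abel
  rw [h4 h] at h3
  rw [← h3]
  abel

end dif

/-! ### Counting -/

section count

variable {M : Type*} [AddCommGroup M]

open Classical in
/-- number of zeros before `N` -/
def zc (f : ℕ → M) (N : ℕ) : ℕ := ((range N).filter (fun n => f n = 0)).card

theorem zc_mono {M' : Type*} [AddCommGroup M'] {f : ℕ → M} {g : ℕ → M'}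
    (h : ∀ n, f n = 0 → g n = 0) (N : ℕ) : zc f N ≤ zc g N := by
  classical
  unfold zc
  refine Finset.card_le_card fun n hn => ?_
  rw [Finset.mem_filter] at *
  exact ⟨hn.1, h n hn.2⟩

theorem zc_le (f : ℕ → M) (N : ℕ) : zc f N ≤ N := by
  classical
  unfold zc
  exact (Finset.card_filter_le _ _).trans (Finset.card_range N).le

/-- pairs of zeros, with exceptional distances -/
theorem pair_count (f : ℕ → M) (N K b : ℕ) (H : Finset ℕ) (hH : H.card ≤ b)
    (hK : ∀ h, 1 ≤ h → h ∉ H → zc (fun n => f (n + h) - f n) N ≤ K) :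
    zc f N ^ 2 ≤ zc f N + 2 * (N * K + b * N) := by
  classical
  set S : Finset ℕ := (range N).filter (fun n => f n = 0) with hS
  have hSc : zc f N = S.card := by
    unfold zc
    rw [hS]
  have hmem : ∀ t, t ∈ S ↔ t < N ∧ f t = 0 := by
    intro t
    rw [hS, Finset.mem_filter, Finset.mem_range]
  have hSN : S.card ≤ N := by
    rw [← hSc]
    exact zc_le f N
  -- pairs at distance `h`
  have hpair : ∀ h, 1 ≤ h → h ∉ H → (S.filter (fun t => t + h ∈ S)).card ≤ K := by
    intro h h1 h2
    refine le_trans ?_ (hK h h1 h2)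
    unfold zc
    apply Finset.card_le_card
    intro t ht
    rw [Finset.mem_filter, hmem, hmem] at ht
    rw [Finset.mem_filter, Finset.mem_range]
    refine ⟨ht.1.1, ?_⟩
    show f (t + h) - f t = 0
    rw [ht.2.2, ht.1.2, sub_zero]
  have hsum : ∑ h ∈ range N, (S.filter (fun t => t + (h + 1) ∈ S)).card ≤ N * K + b * N := by
    calc ∑ h ∈ range N, (S.filter (fun t => t + (h + 1) ∈ S)).card
        ≤ ∑ h ∈ range N, (K + if h + 1 ∈ H then N else 0) := by
          refine Finset.sum_le_sum fun h _ => ?_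
          by_cases hh : h + 1 ∈ H
          · rw [if_pos hh]
            exact ((Finset.card_filter_le _ _).trans hSN).trans (Nat.le_add_left _ _)
          · rw [if_neg hh, add_zero]
            exact hpair (h + 1) (by omega) hh
      _ = N * K + ∑ h ∈ range N, (if h + 1 ∈ H then N else 0) := by
          rw [Finset.sum_add_distrib, Finset.sum_const, Finset.card_range, smul_eq_mul]
      _ ≤ N * K + b * N := by
          refine Nat.add_le_add_left ?_ _
          rw [← Finset.sum_filter, Finset.sum_const, smul_eq_mul]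
          refine Nat.mul_le_mul_right _ ?_
          refine le_trans ?_ hH
          refine Finset.card_le_card_of_injOn (fun h => h + 1) ?_ ?_
          · intro h hh
            rw [Finset.mem_coe, Finset.mem_filter] at hh
            exact hh.2
          · intro h _ h' _ e
            simpa using e
  have h1 : (S ×ˢ S).card ≤ S.card + 2 * (N * K + b * N) := by
    have e1 : S ×ˢ S = (S ×ˢ S).filter (fun p => p.1 = p.2) ∪
        ((range N).biUnion (fun h => (S.filter (fun t => t + (h + 1) ∈ S)).image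
          (fun t => (t, t + (h + 1)))) ∪
        (range N).biUnion (fun h => (S.filter (fun t => t + (h + 1) ∈ S)).image
          (fun t => (t + (h + 1), t)))) := by
      ext ⟨a, b⟩
      simp only [Finset.mem_product, Finset.mem_union, Finset.mem_filter, Finset.mem_biUnion,
        Finset.mem_range, Finset.mem_image, Prod.mk.injEq]
      constructor
      · rintro ⟨ha, hb⟩
        have ha' := (hmem a).1 ha
        have hb' := (hmem b).1 hb
        rcases lt_trichotomy a b with h | h | h
        · right; left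
          refine ⟨b - a - 1, by omega, a, ⟨ha, ?_⟩, rfl, by omega⟩
          rwa [show a + (b - a - 1 + 1) = b by omega]
        · left
          exact ⟨⟨ha, hb⟩, h⟩
        · right; right
          refine ⟨a - b - 1, by omega, b, ⟨hb, ?_⟩, by omega, rfl⟩
          rwa [show b + (a - b - 1 + 1) = a by omega]
      · rintro (⟨h, -⟩ | ⟨h, -, t, ⟨h2, h3⟩, rfl, rfl⟩ | ⟨h, -, t, ⟨h2, h3⟩, rfl, rfl⟩)
        · exact h
        · exact ⟨h2, h3⟩
        · exact ⟨h3, h2⟩
    rw [e1]
    refine (Finset.card_union_le _ _).trans ?_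
    have h2 : ((S ×ˢ S).filter (fun p => p.1 = p.2)).card ≤ S.card := by
      refine Finset.card_le_card_of_injOn (fun p => p.1) ?_ ?_
      · intro p hp
        rw [Finset.mem_coe, Finset.mem_filter, Finset.mem_product] at hp
        exact hp.1.1
      · intro p hp p' hp' e
        rw [Finset.mem_coe, Finset.mem_filter] at hp hp'
        have e' : p.1 = p'.1 := e
        ext
        · exact e'
        · rw [← hp.2, ← hp'.2, e']
    have h3 : ∀ g : ℕ → ℕ → ℕ × ℕ, ((range N).biUnion (fun h =>
        (S.filter (fun t => t + (h + 1) ∈ S)).image (g h))).card ≤ N * K + b * N := by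
      intro g
      refine Finset.card_biUnion_le.trans ?_
      exact (Finset.sum_le_sum fun h _ => Finset.card_image_le).trans hsum
    have h4 := h3 (fun h t => (t, t + (h + 1)))
    have h5 := h3 (fun h t => (t + (h + 1), t))
    have h6 := Finset.card_union_le ((range N).biUnion (fun h =>
        (S.filter (fun t => t + (h + 1) ∈ S)).image (fun t => (t, t + (h + 1)))))
      ((range N).biUnion (fun h => (S.filter (fun t => t + (h + 1) ∈ S)).image
          (fun t => (t + (h + 1), t))))
    omega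
  rw [hSc, sq, ← Finset.card_product]
  exact h1

/-- from the pair count to a power saving -/
theorem zc_of_pairs {f : ℕ → M} {b : ℕ} {C δ : ℝ} (hC : 0 ≤ C) (hδ1 : δ ≤ 1)
    {N : ℕ} (hN : 1 ≤ N) (H : Finset ℕ) (hH : H.card ≤ b)
    (hK : ∀ h, 1 ≤ h → h ∉ H → (zc (fun n => f (n + h) - f n) N : ℝ) ≤ C * (N : ℝ) ^ (1 - δ)) :
    (zc f N : ℝ) ≤ (3 + 2 * C + 2 * b) * (N : ℝ) ^ (1 - δ / 2) := by
  have hN' : (1 : ℝ) ≤ N := by exact_mod_cast hN
  have hN0 : (0 : ℝ) < N := by linarith
  set x : ℝ := (N : ℝ) ^ (1 - δ) with hx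
  have hx1 : 1 ≤ x := Real.one_le_rpow hN' (by linarith)
  set K : ℕ := ⌊C * x⌋₊ with hKd
  have hKle : (K : ℝ) ≤ C * x := Nat.floor_le (by positivity)
  have h1 := pair_count f N K b H hH fun h h1 h2 => Nat.le_floor (hK h h1 h2)
  have h2 : ((zc f N : ℝ)) ^ 2 ≤ zc f N + 2 * (N * K + b * N) := by exact_mod_cast h1
  have hz : (zc f N : ℝ) ≤ N := by exact_mod_cast zc_le f N
  have hNx : (N : ℝ) * x = ((N : ℝ) ^ (1 - δ / 2)) ^ 2 := by
    rw [hx, ← Real.rpow_natCast, ← Real.rpow_mul hN0.le]
    conv_lhs => rw [← Real.rpow_one (N : ℝ)]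
    rw [← Real.rpow_mul hN0.le, ← Real.rpow_add hN0]
    congr 1
    push_cast
    ring
  have h3 : ((zc f N : ℝ)) ^ 2 ≤ (1 + 2 * C + 2 * b) * (N * x) := by
    have hb : (0 : ℝ) ≤ b := Nat.cast_nonneg b
    have a1 : (N : ℝ) ≤ N * x := by nlinarith
    have a2 : (N : ℝ) * K ≤ N * (C * x) := mul_le_mul_of_nonneg_left hKle hN0.le
    have a3 : (b : ℝ) * N ≤ b * (N * x) := mul_le_mul_of_nonneg_left a1 hb
    nlinarith
  rw [hNx] at h3
  have hy : 0 ≤ (N : ℝ) ^ (1 - δ / 2) := by positivity
  have hb : (0 : ℝ) ≤ b := Nat.cast_nonneg b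
  refine abs_le_of_sq_le_sq' ?_ (by positivity) |>.2
  calc ((zc f N : ℝ)) ^ 2 ≤ (1 + 2 * C + 2 * b) * ((N : ℝ) ^ (1 - δ / 2)) ^ 2 := h3
    _ ≤ (3 + 2 * C + 2 * b) ^ 2 * ((N : ℝ) ^ (1 - δ / 2)) ^ 2 := by
        refine mul_le_mul_of_nonneg_right ?_ (by positivity)
        nlinarith
    _ = _ := by ring

end count

end Pool.Agent.Helper26K1.AP
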