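import Pool.Agent.Helper26K1.AP.Dif

/-!
# Finite families of polynomials: differences, shifts, weights
-/

set_option autoImplicit false

open Polynomial Finset

noncomputable section

namespace Pool.Agent.Helper26K1.AP

section poly

variable {B : Type*} [CommRing B]

/-- `P (X + h) - P h` -/
def sft (h : ℕ) (P : B[X]) : B[X] := taylor (h : B) P - C (P.eval (h : B))

theorem sft_eval (h : ℕ) (P : B[X]) (x : B) : (sft h P).eval x = P.eval (x + h) - P.eval (h : B) := by
  unfold sft
  rw [eval_sub, eval_C, taylor_eval]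

theorem sft_nd (h : ℕ) (P : B[X]) : (sft h P).natDegree = P.natDegree := by
  unfold sft
  rw [natDegree_sub_C, natDegree_taylor]

theorem sft_lc (h : ℕ) {P : B[X]} (hP : P.natDegree ≠ 0) :
    (sft h P).leadingCoeff = P.leadingCoeff := by
  have h1 : (sft h P).leadingCoeff = (sft h P).coeff P.natDegree := by
    rw [leadingCoeff, sft_nd]
  rw [h1]
  unfold sft
  rw [coeff_sub, coeff_C, if_neg hP, sub_zero]
  have h2 := leadingCoeff_taylor (r := (h : B)) (f := P)
  rw [leadingCoeff, natDegree_taylor] at h2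
  exact h2

theorem sft_ev0 (h : ℕ) (P : B[X]) : (sft h P).eval 0 = 0 := by
  rw [sft_eval, zero_add, sub_self]

theorem eq_zero_of {P : B[X]} (h0 : P.eval 0 = 0) (hd : P.natDegree = 0) : P = 0 := by
  rw [eq_C_of_natDegree_eq_zero hd] at h0 ⊢
  rw [eval_C] at h0
  rw [h0, C_0]

theorem sft_inj (h : ℕ) {P Q : B[X]} (hP : P.eval 0 = 0) (hQ : Q.eval 0 = 0)
    (e : sft h P = sft h Q) : P = Q := by
  have h1 : taylor (h : B) (P - Q) = C (P.eval (h : B) - Q.eval (h : B)) := by
    unfold sft at e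
    rw [map_sub, C_sub]
    linear_combination e
  have h2 : (P - Q).natDegree = 0 := by
    rw [← natDegree_taylor (P - Q) (h : B), h1, natDegree_C]
  have h3 := eq_zero_of (P := P - Q) (by rw [eval_sub, hP, hQ, sub_zero]) h2
  exact sub_eq_zero.1 h3

theorem sft_one (h : ℕ) {P : B[X]} (h0 : P.eval 0 = 0) (hd : P.natDegree ≤ 1) :
    sft h P = P := by
  have h1 := eq_X_add_C_of_natDegree_le_one hd
  have h2 : P.coeff 0 = 0 := by
    rw [← h0, ← coeff_zero_eq_eval_zero]
  rw [h2, C_0, add_zero] at h1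
  rw [h1]
  unfold sft
  rw [taylor_mul, taylor_C, taylor_X, eval_mul, eval_C, eval_X, C_mul]
  ring

variable [IsDomain B] [CharZero B]

theorem sft_unique {P : B[X]} (hd : 2 ≤ P.natDegree) {h h' : ℕ} (e : sft h P = sft h' P) :
    h = h' := by
  have key : ∀ {h h' : ℕ}, sft h P = sft h' P → ¬ h < h' := by
    intro h h' e hlt
    obtain ⟨g, rfl⟩ := Nat.exists_eq_add_of_lt hlt
    set c : B := P.eval ((h + g + 1 : ℕ) : B) - P.eval (h : B) with hc
    have h1 : ∀ y : B, P.eval (y + ((g + 1 : ℕ) : B)) = P.eval y + c := by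
      intro y
      have h2 := congrArg (Polynomial.eval (y - h)) e
      rw [sft_eval, sft_eval, sub_add_cancel] at h2
      have e1 : y - (h : B) + ((h + g + 1 : ℕ) : B) = y + ((g + 1 : ℕ) : B) := by
        push_cast
        ring
      rw [e1] at h2
      rw [hc]
      linear_combination -h2
    have h2 : ∀ n : ℕ, P.eval (((g + 1 : ℕ) : B) * n) = P.eval 0 + n * c := by
      intro n
      induction n with
      | zero => simp
      | succ n ih =>
        have h3 := h1 (((g + 1 : ℕ) : B) * n)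
        have e2 : ((g + 1 : ℕ) : B) * ((n + 1 : ℕ) : B) = ((g + 1 : ℕ) : B) * n + ((g + 1 : ℕ) : B) := by
          push_cast
          ring
        rw [e2, h3, ih]
        push_cast
        ring
    have h3 : P.comp (C ((g + 1 : ℕ) : B) * X) = C (P.eval 0) + C c * X := by
      apply eq_of_infinite_eval_eq
      refine Set.Infinite.mono (s := Set.range fun n : ℕ => (n : B)) ?_
        (Set.infinite_range_of_injective Nat.cast_injective)
      rintro _ ⟨n, rfl⟩
      show eval (n : B) _ = eval (n : B) _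
      rw [eval_comp, eval_mul, eval_C, eval_X, h2, eval_add, eval_C, eval_mul, eval_C, eval_X,
        mul_comm c]
    have h4 : (P.comp (C ((g + 1 : ℕ) : B) * X)).natDegree = P.natDegree := by
      rw [natDegree_comp, natDegree_C_mul_X _ (by exact_mod_cast Nat.succ_ne_zero g), mul_one]
    have h5 : (C (P.eval 0) + C c * X).natDegree ≤ 1 := by
      refine (natDegree_add_le _ _).trans ?_
      rw [natDegree_C]
      exact max_le (Nat.zero_le _) ((natDegree_C_mul_le c X).trans natDegree_X_le)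
    rw [← h3, h4] at h5
    omega
  rcases lt_trichotomy h h' with h1 | h1 | h1
  · exact absurd h1 (key e)
  · exact h1
  · exact absurd h1 (key e.symm)

end poly

section weights

variable {B : Type*} [CommRing B] [DecidableEq B[X]] [DecidableEq B]

/-- number of leading coefficients in degree `k` -/
def Nk (S : Finset B[X]) (k : ℕ) : ℕ :=
  ((S.filter (fun P => P.natDegree = k)).image leadingCoeff).card

omit [DecidableEq B[X]] in
theorem Nk_mono {S T : Finset B[X]} (h : S ⊆ T) (k : ℕ) : Nk S k ≤ Nk T k :=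
  Finset.card_le_card (Finset.image_subset_image (Finset.filter_subset_filter _ h))

omit [DecidableEq B[X]] in
theorem Nk_le_card (S : Finset B[X]) (k : ℕ) : Nk S k ≤ S.card :=
  Finset.card_image_le.trans (Finset.card_filter_le _ _)

/-- the family of the difference -/
def dS (h : ℕ) (S : Finset B[X]) : Finset B[X] := S ∪ S.image (sft h)

omit [DecidableEq B] in
theorem card_dS (h : ℕ) (S : Finset B[X]) : (dS h S).card ≤ 2 * S.card := by
  unfold dS
  refine (Finset.card_union_le _ _).trans ?_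
  have := Finset.card_image_le (s := S) (f := sft h)
  omega

theorem Nk_dS (h : ℕ) (S : Finset B[X]) {k : ℕ} (hk : k ≠ 0) : Nk (dS h S) k ≤ Nk S k := by
  unfold Nk
  refine Finset.card_le_card ?_
  intro c hc
  rw [Finset.mem_image] at *
  obtain ⟨P, hP, rfl⟩ := hc
  rw [Finset.mem_filter] at hP
  unfold dS at hP
  rw [Finset.mem_union, Finset.mem_image] at hP
  rcases hP.1 with h1 | ⟨Q, hQ, rfl⟩
  · exact ⟨P, Finset.mem_filter.2 ⟨h1, hP.2⟩, rfl⟩
  · rw [sft_nd] at hP
    refine ⟨Q, Finset.mem_filter.2 ⟨hQ, hP.2⟩, ?_⟩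
    rw [sft_lc]
    rw [hP.2]
    exact hk

/-- subtraction of a polynomial -/
def tS (P₁ : B[X]) (S : Finset B[X]) : Finset B[X] := S.image (fun P => P - P₁)

omit [DecidableEq B] in
theorem card_tS (P₁ : B[X]) (S : Finset B[X]) : (tS P₁ S).card ≤ S.card := Finset.card_image_le

theorem Nk_tS_gt {S : Finset B[X]} {P₁ : B[X]} {k : ℕ} (hk : P₁.natDegree < k) :
    Nk (tS P₁ S) k ≤ Nk S k := by
  unfold Nk
  refine Finset.card_le_card ?_
  intro c hc
  rw [Finset.mem_image] at *
  obtain ⟨Q, hQ, rfl⟩ := hc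
  rw [Finset.mem_filter] at hQ
  obtain ⟨h1, h2⟩ := hQ
  unfold tS at h1
  rw [Finset.mem_image] at h1
  obtain ⟨P, hP, rfl⟩ := h1
  have h3 : P₁.natDegree < P.natDegree := by
    by_contra hcon
    push Not at hcon
    have := natDegree_sub_le P P₁
    rw [h2, max_eq_right hcon] at this
    omega
  have h4 := natDegree_sub_eq_left_of_natDegree_lt h3
  refine ⟨P, Finset.mem_filter.2 ⟨hP, by rw [← h4, h2]⟩, ?_⟩
  rw [leadingCoeff_sub_of_degree_lt]
  exact degree_lt_degree h3

theorem Nk_tS_eq {S : Finset B[X]} {P₁ : B[X]} (hP₁ : P₁ ∈ S)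
    (hmin : ∀ P ∈ S, P₁.natDegree ≤ P.natDegree) (h0 : P₁.natDegree ≠ 0) :
    Nk (tS P₁ S) P₁.natDegree + 1 ≤ Nk S P₁.natDegree := by
  unfold Nk
  set cl := (S.filter (fun P => P.natDegree = P₁.natDegree)).image leadingCoeff with hcl
  have hmem : P₁.leadingCoeff ∈ cl := by
    rw [hcl, Finset.mem_image]
    exact ⟨P₁, Finset.mem_filter.2 ⟨hP₁, rfl⟩, rfl⟩
  have h1 : (((tS P₁ S).filter (fun P => P.natDegree = P₁.natDegree)).image leadingCoeff) ⊆
      (cl.erase P₁.leadingCoeff).image (fun c => c - P₁.leadingCoeff) := by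
    intro c hc
    rw [Finset.mem_image] at *
    obtain ⟨Q, hQ, rfl⟩ := hc
    rw [Finset.mem_filter] at hQ
    obtain ⟨h1, h2⟩ := hQ
    unfold tS at h1
    rw [Finset.mem_image] at h1
    obtain ⟨P, hP, rfl⟩ := h1
    have h3 : P.natDegree = P₁.natDegree := by
      by_contra hcon
      have h3 : P₁.natDegree < P.natDegree := lt_of_le_of_ne (hmin P hP) (Ne.symm hcon)
      have h4 := natDegree_sub_eq_left_of_natDegree_lt h3
      rw [h2] at h4
      exact hcon h4.symm
    have h5 : (P - P₁).leadingCoeff = P.leadingCoeff - P₁.leadingCoeff := by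
      rw [leadingCoeff, h2, coeff_sub, leadingCoeff, leadingCoeff, h3]
    refine ⟨P.leadingCoeff, ?_, h5.symm⟩
    rw [Finset.mem_erase]
    refine ⟨?_, ?_⟩
    · intro h6
      rw [h6, sub_self, leadingCoeff_eq_zero] at h5
      rw [h5, natDegree_zero] at h2
      exact h0 h2.symm
    · rw [hcl, Finset.mem_image]
      exact ⟨P, Finset.mem_filter.2 ⟨hP, h3⟩, rfl⟩
  have h2 := (Finset.card_le_card h1).trans Finset.card_image_le
  rw [Finset.card_erase_of_mem hmem] at h2
  have h3 : 0 < cl.card := Finset.card_pos.2 ⟨_, hmem⟩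
  omega

end weights

/-! ### Values of families -/

section val

variable {B : Type*} [CommRing B] {M : Type*} [AddCommGroup M]

/-- `Ψ` is an action of the subgroup `A` -/
structure ActOn (A : AddSubgroup B) (Ψ : B → M →+ M) : Prop where
  add : ∀ a ∈ A, ∀ b ∈ A, ∀ x, Ψ (a + b) x = Ψ a (Ψ b x)
  zero : ∀ x, Ψ 0 x = x

variable {A : AddSubgroup B} {Ψ : B → M →+ M}

theorem ActOn.neg (h : ActOn A Ψ) {a : B} (ha : a ∈ A) (x : M) : Ψ (-a) (Ψ a x) = x := by
  rw [← h.add _ (A.neg_mem ha) _ ha, neg_add_cancel, h.zero]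

/-- the sum over the family -/
def val (Ψ : B → M →+ M) (S : Finset B[X]) (V : B[X] → ℕ → M) (n : ℕ) : M :=
  ∑ P ∈ S, Ψ (P.eval (n : B)) (V P n)

variable [DecidableEq B[X]]

/-- the coefficients of the difference -/
def dV (Ψ : B → M →+ M) (h : ℕ) (S : Finset B[X]) (V : B[X] → ℕ → M) (Q : B[X]) (n : ℕ) : M :=
  ∑ P ∈ S.filter (fun P => sft h P = Q), Ψ (P.eval (h : B)) (V P (n + h)) -
    if Q ∈ S then V Q n else 0

theorem val_diff (hA : ActOn A Ψ) {S : Finset B[X]} (hS : ∀ P ∈ S, ∀ n : ℕ, P.eval (n : B) ∈ A)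
    (V : B[X] → ℕ → M) (h n : ℕ) :
    val Ψ S V (n + h) - val Ψ S V n = val Ψ (dS h S) (dV Ψ h S V) n := by
  unfold val
  have e1 : ∑ Q ∈ dS h S, Ψ (Q.eval (n : B)) (dV Ψ h S V Q n) =
      ∑ Q ∈ dS h S, ∑ P ∈ S.filter (fun P => sft h P = Q),
        Ψ ((sft h P).eval (n : B)) (Ψ (P.eval (h : B)) (V P (n + h))) -
      ∑ Q ∈ dS h S, if Q ∈ S then Ψ (Q.eval (n : B)) (V Q n) else 0 := by
    rw [← Finset.sum_sub_distrib]
    refine Finset.sum_congr rfl fun Q _ => ?_
    unfold dV
    rw [map_sub, map_sum]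
    congr 1
    · refine Finset.sum_congr rfl fun P hP => ?_
      rw [(Finset.mem_filter.1 hP).2]
    · split_ifs
      · rfl
      · exact map_zero _
  rw [e1]
  congr 1
  · rw [Finset.sum_fiberwise_of_maps_to (g := sft h) (fun P hP => by
      unfold dS
      exact Finset.mem_union_right _ (Finset.mem_image_of_mem _ hP))]
    refine Finset.sum_congr rfl fun P hP => ?_
    have h2 : (sft h P).eval (n : B) = P.eval ((n + h : ℕ) : B) - P.eval (h : B) := by
      rw [sft_eval]
      push_cast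
      rfl
    have h3 : (sft h P).eval (n : B) ∈ A := by
      rw [h2]
      exact A.sub_mem (hS P hP _) (hS P hP _)
    rw [← hA.add _ h3 _ (hS P hP h), h2, sub_add_cancel]
  · rw [← Finset.sum_filter]
    refine Finset.sum_congr ?_ fun _ _ => rfl
    ext Q
    rw [Finset.mem_filter]
    constructor
    · intro hQ
      exact ⟨Finset.mem_union_left _ hQ, hQ⟩
    · exact fun hQ => hQ.2

open Classical in
omit [DecidableEq B[X]] in
theorem val_filter (S : Finset B[X]) (V : B[X] → ℕ → M) (n : ℕ) :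
    val Ψ (S.filter (fun P => V P ≠ 0)) V n = val Ψ S V n := by
  unfold val
  rw [Finset.sum_filter]
  refine Finset.sum_congr rfl fun P _ => ?_
  by_cases h : V P = 0
  · rw [if_neg (by simpa using h), h]
    exact (map_zero _).symm
  · rw [if_pos h]

theorem val_tS (hA : ActOn A Ψ) {S : Finset B[X]} (hS : ∀ P ∈ S, ∀ n : ℕ, P.eval (n : B) ∈ A)
    {P₁ : B[X]} (hP₁ : ∀ n : ℕ, P₁.eval (n : B) ∈ A) (V : B[X] → ℕ → M) (n : ℕ) :
    val Ψ (tS P₁ S) (fun Q => V (Q + P₁)) n = Ψ (-(P₁.eval (n : B))) (val Ψ S V n) := by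
  unfold val tS
  rw [Finset.sum_image (fun P _ Q _ e => sub_left_injective e), map_sum]
  refine Finset.sum_congr rfl fun P hP => ?_
  show Ψ (eval (n : B) (P - P₁)) (V (P - P₁ + P₁) n) = _
  rw [← hA.add _ (A.neg_mem (hP₁ n)) _ (hS P hP n), sub_add_cancel, eval_sub, sub_eq_neg_add]

theorem val_tS_zero (hA : ActOn A Ψ) {S : Finset B[X]}
    (hS : ∀ P ∈ S, ∀ n : ℕ, P.eval (n : B) ∈ A)
    {P₁ : B[X]} (hP₁ : ∀ n : ℕ, P₁.eval (n : B) ∈ A) (V : B[X] → ℕ → M) (n : ℕ) :
    val Ψ S V n = 0 → val Ψ (tS P₁ S) (fun Q => V (Q + P₁)) n = 0 := by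
  intro h
  rw [val_tS hA hS hP₁, h, map_zero]

end val

end Pool.Agent.Helper26K1.AP
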