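import Pool.Agent.Helper26K1.AP.Act
import Pool.Agent.TH784.AA.ConvA

/-!
# Sums over polynomial orbits with values in the fixed elements; polynomial phases
-/

set_option autoImplicit false

open Polynomial Finset Filter Topology

noncomputable section

namespace Pool.Agent.Helper26K1.AP

open Pool.Agent.TH784.AA (IsAct)

section fixed

variable {Q : Type*} [AddCommGroup Q] {d : ℕ} {Ψ : (Fin d → ℤ) → Q →+ Q} {J : Type*} [Fintype J]

theorem exists_e (d : ℕ) : ∃ e : (Fin d → ℤ) →+ ℤ[X], Function.Injective e := by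
  obtain ⟨t, G, _, π, σ, e, ht, he, hσ, hπ1, hπ2⟩ := exists_iso (⊥ : AddSubgroup (Fin d → ℤ))
  refine ⟨e.comp π, ?_⟩
  rw [injective_iff_map_eq_zero]
  intro a ha
  have h1 : π a = 0 := by
    apply he
    rw [map_zero]
    exact ha
  have h2 := hπ1 a h1
  rw [AddSubgroup.mem_bot] at h2
  funext i
  have h3 := congrFun h2 i
  rw [Pi.smul_apply, Pi.zero_apply] at h3
  have ht' : (t : ℤ) ≠ 0 := by
    exact_mod_cast (by omega : t ≠ 0)
  rw [nsmul_eq_mul] at h3
  exact (mul_eq_zero.1 h3).resolve_left ht'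

/-- the values of the polynomial which belongs to a vector of integer polynomials -/
theorem eval_vec {G : Type*} [AddCommGroup G] (e : (Fin d → ℤ) →+ ℤ[X]) (S : Fin d → ℤ[X]) (n : ℕ) :
    (∑ i, C (e (Pi.single i 1)) * ((S i).map (Int.castRingHom ℤ[X])) : ℤ[X][X]).eval (n : ℤ[X]) =
      e (ex S n) := by
  have h1 : ex S n = ∑ i, (S i).eval (n : ℤ) • (Pi.single i (1 : ℤ) : Fin d → ℤ) := by
    funext k
    rw [Finset.sum_apply, Finset.sum_eq_single k]
    · simp [ex]
    · intro i _ hik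
      rw [Pi.smul_apply, Pi.single_eq_of_ne hik.symm, smul_zero]
    · intro h
      exact absurd (Finset.mem_univ k) h
  rw [h1, map_sum, eval_finsetSum]
  refine Finset.sum_congr rfl fun i _ => ?_
  rw [eval_mul, eval_C, map_zsmul, zsmul_eq_mul, mul_comm]
  congr 1
  have h2 : (n : ℤ[X]) = (Int.castRingHom ℤ[X]) (n : ℤ) := by simp
  rw [h2, eval_map, eval₂_hom]
  rfl

theorem fixed_poly (h : IsAct Ψ) (K : AddSubgroup Q) (hK : ∀ a, ∀ x ∈ K, Ψ a x = x)
    (P : J → Fin d → ℤ[X]) (w : J → Q) (hF : ∀ n, so Ψ P w n ∈ K) :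
    ∃ T, PD T (so Ψ P w) := by
  classical
  obtain ⟨e, he⟩ := exists_e d
  let ΨB : ℤ[X] → Q →+ Q := fun b => Ψ (Function.invFun e b)
  have hΨ : ∀ (g : Fin d → ℤ) (x : Q), ΨB (e g) x = Ψ g x := by
    intro g x
    show Ψ (Function.invFun e (e g)) x = _
    rw [Function.leftInverse_invFun he g]
  have hΨ0 : ∀ x : Q, ΨB 0 x = x := by
    intro x
    rw [← map_zero e, hΨ, h.zero]
  have hact : ActOn e.range ΨB := by
    refine ⟨?_, hΨ0⟩
    rintro _ ⟨g, rfl⟩ _ ⟨g', rfl⟩ x
    rw [← map_add, hΨ, hΨ, hΨ, h.add]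
  let R : J → ℤ[X][X] := fun j =>
    ∑ i, C (e (Pi.single i 1)) * ((P j i).map (Int.castRingHom ℤ[X])) - C (e (ex (P j) 0))
  have hR : ∀ j (n : ℕ), (R j).eval (n : ℤ[X]) = e (ex (P j) n - ex (P j) 0) := by
    intro j n
    show (_ - C (e (ex (P j) 0)) : ℤ[X][X]).eval (n : ℤ[X]) = _
    rw [eval_sub, eval_C, eval_vec (G := Q), map_sub]
  have hR0 : ∀ j, (R j).eval 0 = 0 := by
    intro j
    have h1 := hR j 0
    rw [Nat.cast_zero, sub_self, map_zero] at h1
    exact h1
  set S₀ : Finset ℤ[X][X] := Finset.univ.image R with hS₀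
  let V : ℤ[X][X] → ℕ → Q := fun p _ => ∑ j ∈ Finset.univ.filter (fun j => R j = p),
    Ψ (ex (P j) 0) (w j)
  have hval : val ΨB S₀ V = so Ψ P w := by
    funext n
    unfold val so
    have h2 : ∑ p ∈ S₀, ΨB (p.eval (n : ℤ[X])) (V p n) =
        ∑ p ∈ S₀, ∑ j ∈ Finset.univ.filter (fun j => R j = p),
          ΨB ((R j).eval (n : ℤ[X])) (Ψ (ex (P j) 0) (w j)) := by
      refine Finset.sum_congr rfl fun p _ => ?_
      rw [map_sum]
      refine Finset.sum_congr rfl fun j hj => ?_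
      rw [(Finset.mem_filter.1 hj).2]
    rw [h2, Finset.sum_fiberwise_of_maps_to (g := R) (fun j _ =>
      Finset.mem_image_of_mem _ (Finset.mem_univ j))]
    refine Finset.sum_congr rfl fun j _ => ?_
    rw [hR, hΨ, ← h.add, sub_add_cancel]
  have hadm : Adm e.range (S₀.sup natDegree) S₀ := by
    refine ⟨?_, ?_, ?_⟩
    · intro p hp
      rw [hS₀, Finset.mem_image] at hp
      obtain ⟨j, _, rfl⟩ := hp
      exact hR0 j
    · intro p hp n
      rw [hS₀, Finset.mem_image] at hp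
      obtain ⟨j, _, rfl⟩ := hp
      rw [hR]
      exact ⟨_, rfl⟩
    · intro p hp
      exact Finset.le_sup (f := natDegree) hp
  have := poly_of_fixed hact K (by
      rintro _ ⟨g, rfl⟩ x hx
      rw [hΨ]
      exact hK g x hx) (S₀.sup natDegree) (fun _ => S₀.card) S₀ V hadm
    (fun i => @Nk_le_card ℤ[X] _ (Classical.decEq _) _ _) (fun p _ => PD.const _)
    (fun n => by
      rw [hval]
      exact hF n)
  rwa [hval] at this

/-- the same up to a constant -/
theorem fixed_poly' (h : IsAct Ψ) (K : AddSubgroup Q) (hK : ∀ a, ∀ x ∈ K, Ψ a x = x)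
    (P : J → Fin d → ℤ[X]) (w : J → Q) (c : Q) (hF : ∀ n, so Ψ P w n - c ∈ K) :
    ∃ T, PD T (fun n => so Ψ P w n - c) := by
  have h1 : ∀ n, so Ψ (fun j : Option J => j.elim (fun _ => 0) P) (fun j => j.elim (-c) w) n =
      so Ψ P w n - c := by
    intro n
    unfold so
    rw [Fintype.sum_option]
    have e1 : ex (fun _ : Fin d => (0 : ℤ[X])) n = 0 := by
      funext i
      exact eval_zero
    show Ψ (ex (fun _ : Fin d => (0 : ℤ[X])) n) (-c) + _ = _
    rw [e1, h.zero]
    show -c + ∑ j, Ψ (ex (P j) n) (w j) = _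
    abel
  obtain ⟨T, hT⟩ := fixed_poly h K hK _ (fun j : Option J => j.elim (-c) w) (fun n => by
    rw [h1]
    exact hF n)
  refine ⟨T, ?_⟩
  refine Eq.trans ?_ hT
  congr 1
  funext n
  exact (h1 n).symm

end fixed

section phase

open Pool.Agent.W742.CU (IsPoly Dv UM)
open Pool.Agent.H767R2 (ev ev_add ev_zero norm_ev)
open Pool.Agent.TH784.AA (um_poly conv_of_um nz)
open Pool.Agent.W761.Box (bxc)

/-- Newton's formula -/
theorem newton {M : Type*} [AddCommGroup M] {T : ℕ} {f : ℕ → M} (hf : PD T f) (n : ℕ) :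
    f n = ∑ k ∈ Finset.range T, n.choose k • dl^[k] f 0 := by
  have h1 := shift_eq_sum_fwdDiff_iter (h := 1) (f := f) n 0
  have e1 : ∀ k, (fwdDiff 1)^[k] f = dl^[k] f := fun k => rfl
  simp only [e1] at h1
  have h2 : (0 + n • 1 : ℕ) = n := by simp
  rw [h2] at h1
  rw [h1]
  have hz : ∀ k, T ≤ k → dl^[k] f 0 = 0 := by
    intro k hk
    have := hf.mono hk
    exact congrFun this 0
  rcases le_total (n + 1) T with h | h
  · refine Finset.sum_subset (Finset.range_subset_range.2 h) fun k _ hk => ?_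
    rw [Finset.mem_range] at hk
    rw [Nat.choose_eq_zero_of_lt (by omega), zero_smul]
  · symm
    refine Finset.sum_subset (Finset.range_subset_range.2 h) fun k _ hk => ?_
    rw [Finset.mem_range] at hk
    rw [hz k (by omega), smul_zero]

theorem isPoly_real (m : ℕ) (p : ℝ[X]) (hp : p.natDegree ≤ m) :
    IsPoly m (fun z : Fin 1 → ℤ => ((p.eval (z 0 : ℝ) : ℝ) : UnitAddCircle)) := by
  induction m generalizing p with
  | zero =>
    intro z
    have h1 := eq_C_of_natDegree_le_zero hp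
    show ((p.eval (z 0 : ℝ) : ℝ) : UnitAddCircle) = ((p.eval (((0 : Fin 1 → ℤ) 0 : ℤ) : ℝ) : ℝ) :
      UnitAddCircle)
    rw [h1, eval_C, eval_C]
  | succ m ih =>
    intro v
    have e : Dv v (fun z : Fin 1 → ℤ => ((p.eval (z 0 : ℝ) : ℝ) : UnitAddCircle)) =
        fun z : Fin 1 → ℤ => (((taylor (v 0 : ℝ) p - p).eval (z 0 : ℝ) : ℝ) : UnitAddCircle) := by
      funext z
      show ((p.eval (((z + v) 0 : ℤ) : ℝ) : ℝ) : UnitAddCircle) -
        ((p.eval (z 0 : ℝ) : ℝ) : UnitAddCircle) = _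
      rw [eval_sub, taylor_eval, AddCircle.coe_sub, Pi.add_apply, Int.cast_add]
    rw [e]
    apply ih
    by_cases h0 : p = 0
    · rw [h0, map_zero, sub_self, natDegree_zero]
      exact Nat.zero_le _
    · have h1 : (taylor (v 0 : ℝ) p - p).degree < (taylor (v 0 : ℝ) p).degree := by
        refine degree_sub_lt_left (degree_taylor _ _) ?_ (leadingCoeff_taylor _ _)
        intro h2
        apply h0
        apply taylor_injective (v 0 : ℝ)
        rw [h2, map_zero]
      rw [degree_taylor] at h1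
      by_cases h2 : taylor (v 0 : ℝ) p - p = 0
      · rw [h2, natDegree_zero]
        exact Nat.zero_le _
      · have := natDegree_lt_natDegree h2 h1
        omega

/-- averages of polynomial phases converge -/
theorem phase_conv {T : ℕ} {θ : ℕ → UnitAddCircle} (h : PD T θ) :
    ∃ c : ℂ, Tendsto (fun N => bxc 1 N fun n => ev (θ (n 0))) atTop (𝓝 c) := by
  choose γ hγ using fun k => QuotientAddGroup.mk_surjective (dl^[k] θ 0)
  have hγ' : ∀ k, ((γ k : ℝ) : UnitAddCircle) = dl^[k] θ 0 := hγ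
  let p : ℝ[X] := ∑ k ∈ Finset.range T, C (γ k / (k.factorial : ℝ)) * descPochhammer ℝ k
  have hp : ∀ n : ℕ, θ n = ((p.eval (n : ℝ) : ℝ) : UnitAddCircle) := by
    intro n
    rw [newton h n]
    have h1 : p.eval (n : ℝ) = ∑ k ∈ Finset.range T, (n.choose k : ℝ) * γ k := by
      show (∑ k ∈ Finset.range T, C (γ k / (k.factorial : ℝ)) * descPochhammer ℝ k).eval (n : ℝ) = _
      rw [eval_finsetSum]
      refine Finset.sum_congr rfl fun k _ => ?_
      rw [eval_mul, eval_C, descPochhammer_eval_eq_descFactorial, Nat.descFactorial_eq_factorial_mul_choose]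
      have : (k.factorial : ℝ) ≠ 0 := by positivity
      push_cast
      field_simp
    rw [h1]
    have h2 : ((∑ k ∈ Finset.range T, (n.choose k : ℝ) * γ k : ℝ) : UnitAddCircle) =
        ∑ k ∈ Finset.range T, (((n.choose k : ℝ) * γ k : ℝ) : UnitAddCircle) :=
      map_sum (QuotientAddGroup.mk' (AddSubgroup.zmultiples (1 : ℝ))) _ _
    rw [h2]
    refine Finset.sum_congr rfl fun k _ => ?_
    rw [← hγ' k, ← nsmul_eq_mul]
    exact (map_nsmul (QuotientAddGroup.mk' (AddSubgroup.zmultiples (1 : ℝ))) _ _).symm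
  obtain ⟨c, hc⟩ := um_poly (isPoly_real p.natDegree p le_rfl)
  refine ⟨c, (conv_of_um hc).congr fun N => ?_⟩
  congr 1
  funext n
  rw [hp]
  rfl

end phase

end Pool.Agent.Helper26K1.AP
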