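import Pool.Agent.Helper26K1.AP.Pet

/-!
# Fixed sums over quasi-actions are polynomial

`Ψ` is an action up to polynomial sequences of fixed elements. A sum over polynomial orbits all of
whose values are fixed elements is a polynomial sequence.
-/

set_option autoImplicit false

open Polynomial Finset

noncomputable section

namespace Pool.Agent.Helper26K1.AP

variable {B : Type*} [CommRing B] [IsDomain B] [CharZero B] {M : Type*} [AddCommGroup M]

/-- polynomial sequences with values in `K` -/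
def PK (K : AddSubgroup M) (f : ℕ → M) : Prop := (∀ n, f n ∈ K) ∧ ∃ T, PD T f

theorem PK.add {K : AddSubgroup M} {f g : ℕ → M} (hf : PK K f) (hg : PK K g) :
    PK K (fun n => f n + g n) := by
  obtain ⟨h1, T, hT⟩ := hf
  obtain ⟨h2, T', hT'⟩ := hg
  exact ⟨fun n => K.add_mem (h1 n) (h2 n), max T T',
    (hT.mono (le_max_left _ _)).add (hT'.mono (le_max_right _ _))⟩

theorem PK.neg {K : AddSubgroup M} {f : ℕ → M} (hf : PK K f) : PK K (fun n => - f n) := by
  obtain ⟨h1, T, hT⟩ := hf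
  exact ⟨fun n => K.neg_mem (h1 n), T, hT.neg⟩

theorem PK.sub {K : AddSubgroup M} {f g : ℕ → M} (hf : PK K f) (hg : PK K g) :
    PK K (fun n => f n - g n) := by
  obtain ⟨h1, T, hT⟩ := hf
  obtain ⟨h2, T', hT'⟩ := hg
  exact ⟨fun n => K.sub_mem (h1 n) (h2 n), max T T',
    (hT.mono (le_max_left _ _)).sub (hT'.mono (le_max_right _ _))⟩

theorem PK.sum {K : AddSubgroup M} {ι : Type*} (s : Finset ι) {f : ι → ℕ → M}
    (h : ∀ i ∈ s, PK K (f i)) : PK K (fun n => ∑ i ∈ s, f i n) := by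
  classical
  induction s using Finset.induction_on with
  | empty =>
    refine ⟨fun n => ?_, 0, ?_⟩
    · show ∑ i ∈ ∅, f i n ∈ K
      rw [Finset.sum_empty]
      exact K.zero_mem
    · simpa using PD.zero 0
  | insert i s hi ih =>
    simp only [Finset.sum_insert hi]
    exact (h i (Finset.mem_insert_self _ _)).add (ih fun j hj => h j (Finset.mem_insert_of_mem hj))

/-- an action up to polynomial sequences in `K` -/
structure QAct (A : AddSubgroup B) (Ψ : B → M →+ M) (K : AddSubgroup M) : Prop where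
  zero : ∀ x, Ψ 0 x = x
  fix : ∀ a ∈ A, ∀ x ∈ K, Ψ a x = x
  quasi : ∀ P Q : B[X], (∀ n : ℕ, P.eval (n : B) ∈ A) → (∀ n : ℕ, Q.eval (n : B) ∈ A) → ∀ v : M,
    PK K (fun n => Ψ (P.eval (n : B) + Q.eval (n : B)) v -
      Ψ (P.eval (n : B)) (Ψ (Q.eval (n : B)) v))

variable {A : AddSubgroup B} {Ψ : B → M →+ M} {K : AddSubgroup M} {D : ℕ}

open Classical in
omit [IsDomain B] [CharZero B] in
theorem q_diff (hA : QAct A Ψ K) {S : Finset B[X]} (hS : Adm A D S) (v : B[X] → M) :
    PK K (fun n => (val Ψ S (fun P _ => v P) (n + 1) - val Ψ S (fun P _ => v P) n) -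
      val Ψ (dS 1 S) (dV Ψ 1 S (fun P _ => v P)) n) := by
  have h1 : ∀ n, (val Ψ S (fun P _ => v P) (n + 1) - val Ψ S (fun P _ => v P) n) -
      val Ψ (dS 1 S) (dV Ψ 1 S (fun P _ => v P)) n =
      ∑ P ∈ S, (Ψ ((sft 1 P).eval (n : B) + (C (P.eval ((1 : ℕ) : B)) : B[X]).eval (n : B)) (v P) -
        Ψ ((sft 1 P).eval (n : B)) (Ψ ((C (P.eval ((1 : ℕ) : B)) : B[X]).eval (n : B)) (v P))) := by
    intro n
    have e1 : val Ψ (dS 1 S) (dV Ψ 1 S (fun P _ => v P)) n =
        ∑ Q ∈ dS 1 S, ∑ P ∈ S.filter (fun P => sft 1 P = Q),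
          Ψ ((sft 1 P).eval (n : B)) (Ψ (P.eval ((1 : ℕ) : B)) (v P)) -
        ∑ Q ∈ dS 1 S, if Q ∈ S then Ψ (Q.eval (n : B)) (v Q) else 0 := by
      unfold val
      rw [← Finset.sum_sub_distrib]
      refine Finset.sum_congr rfl fun Q _ => ?_
      unfold dV
      rw [map_sub, map_sum]
      congr 1
      · refine Finset.sum_congr rfl fun P hP => ?_
        rw [(Finset.mem_filter.1 hP).2]
      · split_ifs
        · rfl
        · exact map_zero _
    have e2 : ∑ Q ∈ dS 1 S, (if Q ∈ S then Ψ (Q.eval (n : B)) (v Q) else 0) =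
        val Ψ S (fun P _ => v P) n := by
      unfold val
      rw [← Finset.sum_filter]
      refine Finset.sum_congr ?_ fun _ _ => rfl
      ext Q
      rw [Finset.mem_filter]
      constructor
      · exact fun hQ => hQ.2
      · intro hQ
        exact ⟨Finset.mem_union_left _ hQ, hQ⟩
    rw [e1, e2, Finset.sum_fiberwise_of_maps_to (g := sft 1) (fun P hP => by
      unfold dS
      exact Finset.mem_union_right _ (Finset.mem_image_of_mem _ hP))]
    have e3 : val Ψ S (fun P _ => v P) (n + 1) =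
        ∑ P ∈ S, Ψ ((sft 1 P).eval (n : B) + (C (P.eval ((1 : ℕ) : B)) : B[X]).eval (n : B))
          (v P) := by
      unfold val
      refine Finset.sum_congr rfl fun P _ => ?_
      rw [sft_eval, eval_C, sub_add_cancel]
      push_cast
      rfl
    rw [e3, Finset.sum_sub_distrib]
    simp only [eval_C]
    abel
  simp only [h1]
  refine PK.sum _ fun P hP => hA.quasi (sft 1 P) (C (P.eval ((1 : ℕ) : B))) (fun n => ?_)
    (fun n => ?_) (v P)
  · exact (hS.dS 1).mem _ (Finset.mem_union_right _ (Finset.mem_image_of_mem _ hP)) n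
  · rw [eval_C]
    exact hS.mem P hP 1

open Classical in
omit [IsDomain B] [CharZero B] in
theorem q_tS (hA : QAct A Ψ K) {S : Finset B[X]} (hS : Adm A D S) {P₁ : B[X]} (hP₁ : P₁ ∈ S)
    (v : B[X] → M) :
    PK K (fun n => val Ψ (tS P₁ S) (fun Q _ => v (Q + P₁)) n -
      Ψ (-(P₁.eval (n : B))) (val Ψ S (fun P _ => v P) n)) := by
  have h1 : ∀ n, val Ψ (tS P₁ S) (fun Q _ => v (Q + P₁)) n -
      Ψ (-(P₁.eval (n : B))) (val Ψ S (fun P _ => v P) n) =
      ∑ P ∈ S, (Ψ ((-P₁).eval (n : B) + P.eval (n : B)) (v P) -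
        Ψ ((-P₁).eval (n : B)) (Ψ (P.eval (n : B)) (v P))) := by
    intro n
    unfold val tS
    rw [Finset.sum_image (fun P _ Q _ e => sub_left_injective e), map_sum,
      ← Finset.sum_sub_distrib]
    refine Finset.sum_congr rfl fun P _ => ?_
    show Ψ (eval (n : B) (P - P₁)) (v (P - P₁ + P₁)) - _ = _
    have e2 : eval (n : B) (P - P₁) = eval (n : B) (-P₁) + eval (n : B) P := by
      rw [eval_sub, eval_neg]
      ring
    rw [sub_add_cancel, e2, eval_neg]
  simp only [h1]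
  refine PK.sum _ fun P hP => hA.quasi (-P₁) P (fun n => ?_) (fun n => hS.mem P hP n) (v P)
  rw [eval_neg]
  exact A.neg_mem (hS.mem P₁ hP₁ n)

open Classical in
theorem poly_of_quasi (hA : QAct A Ψ K) (D : ℕ) (w : Fin D → ℕ) (S : Finset B[X])
    (v : B[X] → M) (hS : Adm A D S) (hwt : WtLe D S w)
    (hF : ∀ n, val Ψ S (fun P _ => v P) n ∈ K) : ∃ T, PD T (val Ψ S (fun P _ => v P)) := by
  suffices H : ∀ w : Lex (Fin D → ℕ), ∀ (S : Finset B[X]) (v : B[X] → M), Adm A D S →
      WtLe D S (ofLex w) → (∀ n, val Ψ S (fun P _ => v P) n ∈ K) →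
      ∃ T, PD T (val Ψ S (fun P _ => v P)) from H (toLex w) S v hS hwt hF
  intro w
  induction w using WellFoundedLT.induction with
  | ind w IH =>
  intro S v hS hwt hF
  -- the coefficients of the difference
  set u : B[X] → M := fun Q => dV Ψ 1 S (fun P _ => v P) Q 0 with hu
  have huV : ∀ Q n, dV Ψ 1 S (fun P _ => v P) Q n = u Q := fun Q n => rfl
  have hdVu : dV Ψ 1 S (fun P _ => v P) = fun Q _ => u Q := by
    funext Q n
    exact huV Q n
  set G : ℕ → M := val Ψ (dS 1 S) (fun Q _ => u Q) with hG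
  obtain ⟨hdK, T₁, hT₁⟩ := q_diff hA hS v
  rw [hdVu] at hdK hT₁
  have hGK : ∀ n, G n ∈ K := by
    intro n
    have h1 := K.sub_mem (K.sub_mem (hF (n + 1)) (hF n)) (hdK n)
    rwa [sub_sub_cancel] at h1
  suffices hT : ∃ T, PD T G by
    obtain ⟨T, hT⟩ := hT
    refine ⟨max T T₁ + 1, PD.of_dl ?_⟩
    have h2 := (hT.mono (le_max_left T T₁)).add (hT₁.mono (le_max_right T T₁))
    refine Eq.trans ?_ h2
    congr 1
    funext n
    simp only [dl]
    rw [hG]
    abel
  set S₁ := (dS 1 S).filter (fun Q => u Q ≠ 0) with hS₁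
  have hG1 : G = val Ψ S₁ (fun Q _ => u Q) := by
    funext n
    rw [hG, hS₁]
    unfold val
    rw [Finset.sum_filter]
    refine Finset.sum_congr rfl fun Q _ => ?_
    by_cases h : u Q = 0
    · rw [if_neg (by simpa using h)]
      show Ψ _ (u Q) = 0
      rw [h, map_zero]
    · rw [if_pos h]
  have hsub : S₁ ⊆ dS 1 S := Finset.filter_subset _ _
  have hadm : Adm A D S₁ := (hS.dS 1).mono hsub
  have hwt1 : WtLe D S₁ (ofLex w) := (hwt.dS 1).mono hsub
  have h0 : (0 : B[X]) ∉ S₁ := by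
    intro h
    apply (Finset.mem_filter.1 h).2
    by_cases h4 : (0 : B[X]) ∈ S
    · show dV Ψ 1 S (fun P _ => v P) 0 0 = 0
      unfold dV
      have e1 : S.filter (fun P => sft 1 P = 0) = {0} := by
        ext P
        rw [Finset.mem_filter, Finset.mem_singleton]
        constructor
        · rintro ⟨h1, h2⟩
          refine eq_zero_of (hS.ev0 P h1) ?_
          rw [← sft_nd 1 P, h2, natDegree_zero]
        · rintro rfl
          exact ⟨h4, eq_zero_of (sft_ev0 1 0) (by rw [sft_nd, natDegree_zero])⟩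
      rw [e1, Finset.sum_singleton, if_pos h4, eval_zero, hA.zero, sub_self]
    · have := dV_zero' (Ψ := Ψ) hS (V := fun P _ => v P) 1 h4
      exact congrFun this 0
  rcases S₁.eq_empty_or_nonempty with he | hne
  · refine ⟨0, ?_⟩
    rw [hG1, he]
    funext n
    show val Ψ ∅ _ n = 0
    unfold val
    rw [Finset.sum_empty]
  obtain ⟨P₁, hP₁, hmin⟩ := Finset.exists_min_image S₁ natDegree hne
  have hd0 : P₁.natDegree ≠ 0 := by
    intro h
    have := eq_zero_of (hadm.ev0 P₁ hP₁) h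
    rw [this] at hP₁
    exact h0 hP₁
  obtain ⟨i₁, hi₁, hwt2⟩ := hwt1.tS hP₁ hmin hd0 (hadm.deg P₁ hP₁) (le_refl S₁.card)
  obtain ⟨htK, T₂, hT₂⟩ := q_tS hA hadm hP₁ u
  have hfix : ∀ n : ℕ, Ψ (-(P₁.eval (n : B))) (G n) = G n := fun n =>
    hA.fix _ (A.neg_mem (hadm.mem P₁ hP₁ n)) _ (hGK n)
  have e1 : ∀ n, val Ψ S₁ (fun P _ => u P) n = G n := fun n => by rw [hG1]
  simp only [e1, hfix] at htK hT₂
  obtain ⟨T₃, hT₃⟩ := IH (toLex (wdn (ofLex w) i₁ S₁.card)) (wdn_lt hi₁ _) (tS P₁ S₁)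
    (fun Q => u (Q + P₁)) (hadm.tS hP₁) hwt2 (fun n => by
      have h1 := K.add_mem (htK n) (hGK n)
      rwa [sub_add_cancel] at h1)
  refine ⟨max T₃ T₂, ?_⟩
  have h2 := (hT₃.mono (le_max_left T₃ T₂)).sub (hT₂.mono (le_max_right T₃ T₂))
  refine Eq.trans ?_ h2
  congr 1
  funext n
  abel

end Pool.Agent.Helper26K1.AP
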