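import Pool.Agent.Helper26K1.AP.Phase
import Pool.Agent.Helper26K1.AP.Quasi

/-!
# Sums over polynomial orbits of actions up to polynomial errors
-/

set_option autoImplicit false

open Polynomial Finset

noncomputable section

namespace Pool.Agent.Helper26K1.AP

variable {Q : Type*} [AddCommGroup Q] {d : ℕ} {Ψ : (Fin d → ℤ) → Q →+ Q} {J : Type*} [Fintype J]

/-- an action of `ℤ ^ d` up to polynomial sequences in `K` -/
structure QA (Ψ : (Fin d → ℤ) → Q →+ Q) (K : AddSubgroup Q) : Prop where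
  zero : ∀ x, Ψ 0 x = x
  fix : ∀ a, ∀ x ∈ K, Ψ a x = x
  quasi : ∀ f g : ℕ → Fin d → ℤ, (∃ D, PD D f) → (∃ D, PD D g) → ∀ v,
    PK K (fun n => Ψ (f n + g n) v - Ψ (f n) (Ψ (g n) v))

theorem PD.of_inj {M N : Type*} [AddCommGroup M] [AddCommGroup N] {φ : M →+ N}
    (hφ : Function.Injective φ) {e : ℕ} {f : ℕ → M} (hf : PD e (fun n => φ (f n))) : PD e f := by
  unfold PD at hf ⊢
  rw [it_map] at hf
  funext n
  apply hφ
  rw [Pi.zero_apply, map_zero]
  exact congrFun hf n

/-- values of polynomials are polynomial sequences -/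
theorem pd_eval {B : Type*} [CommRing B] (P : B[X]) :
    PD (P.natDegree + 1) (fun n : ℕ => P.eval (n : B)) := by
  suffices H : ∀ (k : ℕ) (P : B[X]), P.natDegree ≤ k → PD (k + 1) (fun n : ℕ => P.eval (n : B)) from
    H _ P le_rfl
  intro k
  induction k with
  | zero =>
    intro P hP
    rw [Polynomial.eq_C_of_natDegree_le_zero hP]
    simp only [eval_C]
    exact PD.const _
  | succ k ih =>
    intro P hP
    apply PD.of_dl
    have e1 : dl (fun n : ℕ => P.eval (n : B)) =
        fun n : ℕ => (taylor 1 P - P).eval (n : B) := by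
      funext n
      unfold dl
      rw [eval_sub, taylor_eval, add_comm]
      push_cast
      rw [add_comm]
    rw [e1]
    apply ih
    by_cases h0 : P.natDegree = 0
    · rw [Polynomial.eq_C_of_natDegree_eq_zero h0, taylor_C, sub_self, natDegree_zero]
      exact Nat.zero_le _
    · have h1 : (taylor 1 P - P).natDegree < P.natDegree := by
        have hd : (taylor (1 : B) P).degree = P.degree := by
          rw [degree_taylor]
        have hP0 : P ≠ 0 := by
          rintro rfl
          exact h0 natDegree_zero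
        rcases eq_or_ne (taylor 1 P - P) 0 with hz | hz
        · rw [hz, natDegree_zero]
          exact Nat.pos_of_ne_zero h0
        · have h2 : (taylor 1 P - P).degree < (taylor (1 : B) P).degree := by
            apply degree_sub_lt_left hd
            · intro h
              rw [h, degree_zero] at hd
              exact hP0 (degree_eq_bot.1 hd.symm)
            · exact leadingCoeff_taylor (r := (1 : B)) (f := P)
          rw [hd] at h2
          exact natDegree_lt_natDegree hz h2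
      omega

theorem qfixed {K : AddSubgroup Q} (h : QA Ψ K)
    (P : J → Fin d → ℤ[X]) (w : J → Q) (hF : ∀ n, so Ψ P w n ∈ K) :
    ∃ T, PD T (so Ψ P w) := by
  classical
  obtain ⟨e, he⟩ := exists_e d
  let ΨB : ℤ[X] → Q →+ Q := fun b => Ψ (Function.invFun e b)
  have hΨ : ∀ (g : Fin d → ℤ) (x : Q), ΨB (e g) x = Ψ g x := by
    intro g x
    show Ψ (Function.invFun e (e g)) x = _
    rw [Function.leftInverse_invFun he g]
  have hΨ0 : ∀ x : Q, ΨB 0 x = x := by
    intro x
    rw [← map_zero e, hΨ, h.zero]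
  have hlift : ∀ p : ℤ[X][X], (∀ n : ℕ, p.eval (n : ℤ[X]) ∈ e.range) →
      ∃ f : ℕ → Fin d → ℤ, (∃ D, PD D f) ∧ ∀ n : ℕ, e (f n) = p.eval (n : ℤ[X]) := by
    intro p hp
    choose f hf using hp
    refine ⟨f, ⟨p.natDegree + 1, PD.of_inj he ?_⟩, hf⟩
    simp only [hf]
    exact pd_eval p
  have hact : QAct e.range ΨB K := by
    refine ⟨hΨ0, ?_, ?_⟩
    · rintro _ ⟨g, rfl⟩ x hx
      rw [hΨ, h.fix g x hx]
    · intro p p' hp hp' v
      obtain ⟨f, hf, hf'⟩ := hlift p hp
      obtain ⟨g, hg, hg'⟩ := hlift p' hp'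
      have := h.quasi f g hf hg v
      have e1 : (fun n : ℕ => ΨB (p.eval (n : ℤ[X]) + p'.eval (n : ℤ[X])) v -
          ΨB (p.eval (n : ℤ[X])) (ΨB (p'.eval (n : ℤ[X])) v)) =
          fun n => Ψ (f n + g n) v - Ψ (f n) (Ψ (g n) v) := by
        funext n
        rw [← hf', ← hg', ← map_add, hΨ, hΨ, hΨ]
      rw [e1]
      exact this
  let R : J → ℤ[X][X] := fun j =>
    ∑ i, C (e (Pi.single i 1)) * ((P j i).map (Int.castRingHom ℤ[X])) - C (e (ex (P j) 0))
  have hR : ∀ j (n : ℕ), (R j).eval (n : ℤ[X]) = e (ex (P j) n - ex (P j) 0) := by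
    intro j n
    show (_ - C (e (ex (P j) 0)) : ℤ[X][X]).eval (n : ℤ[X]) = _
    rw [eval_sub, eval_C, eval_vec (G := Q), map_sub]
  have hR0 : ∀ j, (R j).eval 0 = 0 := by
    intro j
    have h1 := hR j 0
    rw [Nat.cast_zero, sub_self, map_zero] at h1
    exact h1
  set S₀ : Finset ℤ[X][X] := Finset.univ.image R with hS₀
  let V : ℤ[X][X] → Q := fun p => ∑ j ∈ Finset.univ.filter (fun j => R j = p),
    Ψ (ex (P j) 0) (w j)
  have hval : ∀ n, val ΨB S₀ (fun p _ => V p) n =
      ∑ j, Ψ (ex (P j) n - ex (P j) 0) (Ψ (ex (P j) 0) (w j)) := by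
    intro n
    unfold val
    have h2 : ∑ p ∈ S₀, ΨB (p.eval (n : ℤ[X])) (V p) =
        ∑ p ∈ S₀, ∑ j ∈ Finset.univ.filter (fun j => R j = p),
          ΨB ((R j).eval (n : ℤ[X])) (Ψ (ex (P j) 0) (w j)) := by
      refine Finset.sum_congr rfl fun p _ => ?_
      rw [map_sum]
      refine Finset.sum_congr rfl fun j hj => ?_
      rw [(Finset.mem_filter.1 hj).2]
    rw [h2, Finset.sum_fiberwise_of_maps_to (g := R) (fun j _ =>
      Finset.mem_image_of_mem _ (Finset.mem_univ j))]
    refine Finset.sum_congr rfl fun j _ => ?_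
    rw [hR, hΨ]
  have hpd : ∀ j : J, ∃ D, PD D (fun n => ex (P j) n) := fun j => pd_pi (P j)
  have hdiff : PK K (fun n => so Ψ P w n - val ΨB S₀ (fun p _ => V p) n) := by
    have h1 : ∀ n, so Ψ P w n - val ΨB S₀ (fun p _ => V p) n =
        ∑ j, (Ψ ((ex (P j) n - ex (P j) 0) + ex (P j) 0) (w j) -
          Ψ (ex (P j) n - ex (P j) 0) (Ψ (ex (P j) 0) (w j))) := by
      intro n
      rw [hval, Finset.sum_sub_distrib]
      simp only [sub_add_cancel]
      rfl
    simp only [h1]
    refine PK.sum _ fun j _ => h.quasi (fun n => ex (P j) n - ex (P j) 0) (fun _ => ex (P j) 0)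
      ?_ ⟨1, PD.const _⟩ (w j)
    obtain ⟨D, hD⟩ := hpd j
    exact ⟨max D 1, (hD.mono (le_max_left _ _)).sub ((PD.const _).mono (le_max_right _ _))⟩
  have hadm : Adm e.range (S₀.sup natDegree) S₀ := by
    refine ⟨?_, ?_, ?_⟩
    · intro p hp
      rw [hS₀, Finset.mem_image] at hp
      obtain ⟨j, _, rfl⟩ := hp
      exact hR0 j
    · intro p hp n
      rw [hS₀, Finset.mem_image] at hp
      obtain ⟨j, _, rfl⟩ := hp
      rw [hR]
      exact ⟨_, rfl⟩
    · intro p hp
      exact Finset.le_sup (f := natDegree) hp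
  obtain ⟨hdK, T₁, hT₁⟩ := hdiff
  obtain ⟨T, hT⟩ := poly_of_quasi hact (S₀.sup natDegree) (fun _ => S₀.card) S₀ V hadm
    (fun i => @Nk_le_card ℤ[X] _ (Classical.decEq _) _ _)
    (fun n => by
      have h1 := K.sub_mem (hF n) (hdK n)
      rwa [sub_sub_cancel] at h1)
  refine ⟨max T T₁, ?_⟩
  have h2 := (hT.mono (le_max_left T T₁)).add (hT₁.mono (le_max_right T T₁))
  refine Eq.trans ?_ h2
  congr 1
  funext n
  abel

/-- the same up to a constant -/
theorem qfixed' {K : AddSubgroup Q} (h : QA Ψ K)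
    (P : J → Fin d → ℤ[X]) (w : J → Q) (c : Q) (hF : ∀ n, so Ψ P w n - c ∈ K) :
    ∃ T, PD T (fun n => so Ψ P w n - c) := by
  have h1 : ∀ n, so Ψ (fun j : Option J => j.elim (fun _ => 0) P) (fun j => j.elim (-c) w) n =
      so Ψ P w n - c := by
    intro n
    unfold so
    rw [Fintype.sum_option]
    have e1 : ex (fun _ : Fin d => (0 : ℤ[X])) n = 0 := by
      funext i
      exact eval_zero
    show Ψ (ex (fun _ : Fin d => (0 : ℤ[X])) n) (-c) + _ = _
    rw [e1, h.zero]
    show -c + ∑ j, Ψ (ex (P j) n) (w j) = _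
    abel
  obtain ⟨T, hT⟩ := qfixed h _ (fun j : Option J => j.elim (-c) w) (fun n => by
    rw [h1]
    exact hF n)
  refine ⟨T, ?_⟩
  refine Eq.trans ?_ hT
  congr 1
  funext n
  exact (h1 n).symm

end Pool.Agent.Helper26K1.AP
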